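import Pool.Agent.QSN.Defs
import Pool.Agent.QSX.StmtsA
import Pool.Agent.QSX.StmtsB
import Pool.Agent.QSX.StmtsF

/-!
# Squad QSN, part A: from the algebraic data on `Γ` to the brackets; the rational short form

One statement per row; every docstring contains a complete proof.  Most rows are COPIES of rows of
squad QSX (`Pool/Agent/QSX/StmtsA.lean`, `StmtsF.lean`; the files are named in the docstrings) with
`l ≠ l'` replaced by `rt l ≠ rt l'`.  `w_il` stands for the functional `a ↦ P a i - P a l`.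
The CLASS of `l` is the set of all `l'` with `rt l' = rt l`.
-/

set_option autoImplicit false

namespace Pool.Agent.QSN

open Matrix Finset Pool.Agent.QSX

/-! ### Block 0: basic lemmas (proved) -/

section

variable {X : Dat} (hX : MS X)

theorem MS.su_e (l : hX.ι) : SU (hX.e l) := by
  apply X.su
  rw [← hX.span_e]
  exact Submodule.subset_span ⟨l, rfl⟩

theorem MS.e_mem (l : hX.ι) : hX.e l ∈ X.n := by
  rw [← hX.span_e]
  exact Submodule.subset_span ⟨l, rfl⟩

theorem MS.rt_ne (l : hX.ι) : hX.rt l ≠ 0 := by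
  obtain ⟨a, ha⟩ := hX.pos
  intro h
  have := ha l
  rw [h] at this
  exact lt_irrefl _ this

/-- different roots are linearly independent -/
theorem MS.indep {l l' : hX.ι} (h : hX.rt l ≠ hX.rt l') {s t s' t' : ℝ}
    (e : s • hX.rt l + t • hX.rt l' = s' • hX.rt l + t' • hX.rt l') : s = s' ∧ t = t' := by
  have key : ∀ l l' : hX.ι, hX.rt l ≠ hX.rt l' → ∀ s t s' t' : ℝ,
      s • hX.rt l + t • hX.rt l' = s' • hX.rt l + t' • hX.rt l' → s = s' := by
    intro l l' h s t s' t' e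
    by_contra hs
    apply hX.nonprop l l' h ((t' - t) / (s - s'))
    have hs' : s - s' ≠ 0 := sub_ne_zero.2 hs
    have h1 : (s - s') • hX.rt l = (t' - t) • hX.rt l' := by
      apply LinearMap.ext
      intro a
      have e1 := congrArg (fun f : X.b →ₗ[ℝ] ℝ => f a) e
      simp only [LinearMap.add_apply, LinearMap.smul_apply, smul_eq_mul] at e1 ⊢
      linear_combination e1
    rw [div_eq_inv_mul, mul_smul, ← h1, smul_smul, inv_mul_cancel₀ hs', one_smul]
  refine ⟨key l l' h s t s' t' e, key l' l h.symm t s t' s' ?_⟩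
  rw [add_comm (t • hX.rt l'), e, add_comm]

/-- the roots of the factors of a commutator formula are different from `rt l` and `rt l'` -/
theorem MS.t_ne (l l' : hX.ι) (h : hX.rt l ≠ hX.rt l') (t : hX.ι × ℕ × ℕ × ℚ)
    (ht : t ∈ hX.L l l') : hX.rt t.1 ≠ hX.rt l ∧ hX.rt t.1 ≠ hX.rt l' := by
  obtain ⟨hp, hq, hr⟩ := hX.L_rt l l' t ht
  have hp' : (t.2.1 : ℝ) ≠ 0 := by positivity
  have hq' : (t.2.2.1 : ℝ) ≠ 0 := by positivity
  constructor
  · intro h1
    have h2 : (t.2.1 : ℝ) • hX.rt l + (t.2.2.1 : ℝ) • hX.rt l' =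
        (1 : ℝ) • hX.rt l + (0 : ℝ) • hX.rt l' := by
      rw [← hr, h1, one_smul, zero_smul, add_zero]
    exact hq' (hX.indep h h2).2
  · intro h1
    have h2 : (t.2.1 : ℝ) • hX.rt l + (t.2.2.1 : ℝ) • hX.rt l' =
        (0 : ℝ) • hX.rt l + (1 : ℝ) • hX.rt l' := by
      rw [← hr, h1, one_smul, zero_smul, zero_add]
    exact hp' (hX.indep h h2).1

/-- factors with the same root have the same exponents -/
theorem MS.t_pq (l l' : hX.ι) (h : hX.rt l ≠ hX.rt l') (t t' : hX.ι × ℕ × ℕ × ℚ)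
    (ht : t ∈ hX.L l l') (ht' : t' ∈ hX.L l l') (e : hX.rt t.1 = hX.rt t'.1) :
    t.2.1 = t'.2.1 ∧ t.2.2.1 = t'.2.2.1 := by
  have h1 := (hX.L_rt l l' t ht).2.2
  have h2 := (hX.L_rt l l' t' ht').2.2
  rw [h1, h2] at e
  have h3 := hX.indep h e
  exact ⟨by exact_mod_cast h3.1, by exact_mod_cast h3.2⟩

end

/-! ### Block X: the group `Γ` -/

/-- **WTX** (easy-medium, no hypotheses).  An element of `n` of weight `ρ` is a combination of the `e t` with `rt t = ρ`.
Proof.  Write `x = ∑ x_t e_t` (`span_e`, `ι` finite: `Submodule.mem_span_range_iff_exists_fun`).  For `c ∈ b` the linear map `y ↦ diag c y - y diag c` maps `x` to `∑ x_t rt_t(c) e_t` (`wt`) and to `ρ(c) ∑ x_t e_t`; so by `lin`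
`x_t (rt_t(c) - ρ(c)) = 0` for all `c` and `t`.  If `x_t ≠ 0`, then `rt t = ρ`.  So `x` is a sum of elements `x_t e_t` of the span. -/
def WtxStmt : Prop :=
  ∀ (X : Dat) (hX : MS X) (ρ : X.b →ₗ[ℝ] ℝ), ∀ x ∈ X.n,
    (∀ c : X.b, diagonal (c : Fin X.m → ℝ) * x - x * diagonal (c : Fin X.m → ℝ) = ρ c • x) →
    x ∈ Submodule.span ℝ (hX.e '' {t | hX.rt t = ρ})

/-- **CSR** (easy-medium, uses WTX).  The root spaces of `X` are abelian.
Proof.  It is enough to prove `e l * e l' = e l' * e l` for `rt l = rt l'` (bilinearity, `Submodule.span_induction` twice).  `z = e l * e l' - e l' * e l ∈ n` (`X.lie`), and with `D = diag c`: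
`D z - z D = [D e_l - e_l D, e_l'] + [e_l, D e_l' - e_l' D] = 2 rt_l(c) z` (`wt`).  By WTX `z` is in the span of the `e t` with `rt t = (2 : ℝ) • rt l`, but there is no such `t`: if `rt t ≠ rt l` this is `nonprop t l`, and if `rt t = rt l`
then `rt l = 2 • rt l`, `rt l = 0`, against `rt_ne`.  So `z = 0`. -/
def CsrStmt : Prop :=
  ∀ (X : Dat) (hX : MS X) (l : hX.ι), ∀ x ∈ Submodule.span ℝ (hX.e '' {t | hX.rt t = hX.rt l}),
    ∀ y ∈ Submodule.span ℝ (hX.e '' {t | hX.rt t = hX.rt l}), x * y = y * x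

/-- **BRN** (easy, uses COF of QSX; copy of `Helper16_QSX/BRE.lean`).  The brackets of the basis.
Proof.  `hX.com` for natural `x`, `y` is the identity required by COF with `F = ℝ`, `A = e l`, `B = e l'`, `C t = e t` (`su_e`); `L_rt` gives `p, q ≥ 1`. -/
def BrnStmt : Prop :=
  ∀ (X : Dat) (hX : MS X) (l l' : hX.ι), hX.rt l ≠ hX.rt l' →
    hX.e l * hX.e l' - hX.e l' * hX.e l = hX.br hX.e l l'

/-- the group generated by the root elements (with rational parameters) of the roots different from `rt t` -/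
def MS.K {X : Dat} (hX : MS X) (t : hX.ι) : Subgroup (Matrix (Fin X.m) (Fin X.m) ℝ)ˣ :=
  Subgroup.closure {g | ∃ (m : hX.ι) (y : ℚ), hX.rt m ≠ hX.rt t ∧ g = ue ((y : ℝ) • hX.e m)}

/-- **KNR** (medium, no hypotheses).  The group `K t` is normalised by the root elements of the root `rt t`.
Proof.  Let `g = ue (y e_s)`, `rt s = rt t`.  For a generator `h = ue (z e_m)`, `rt m ≠ rt t`, `com s m` gives `g h g⁻¹ = (∏_(r ∈ L s m) ue (c_r y^p z^q e_r)) h`, and `rt r ≠ rt s = rt t` (`t_ne`), the parameters are rational: all factors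
are generators of `K t`.  So `g h g⁻¹ ∈ K t` for all `h ∈ K t` (`Subgroup.closure_induction`; or `Subgroup.closure_le` for the preimage of `K t` under the conjugation). -/
def KnrStmt : Prop :=
  ∀ (X : Dat) (hX : MS X) (t s : hX.ι) (y : ℚ), hX.rt s = hX.rt t → ∀ h ∈ hX.K t,
    ue ((y : ℝ) • hX.e s) * h * (ue ((y : ℝ) • hX.e s))⁻¹ ∈ hX.K t

/-- **GLS** (easy-medium, no hypotheses).  A list modulo a subgroup.
Proof.  Claim for every list `L` of elements: there is `k ∈ K` with `(L.map f).prod = k * ((L.filter p).map f).prod`; induction on `L`: `L = a :: L'`; if `p a`: `f a * (k * π) = (f a * k * (f a)⁻¹) * (f a * π)`; if not `p a`: `f a * k ∈ K`. -/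
def GlsStmt : Prop :=
  ∀ (G α : Type) [Group G] (K : Subgroup G) (f : α → G) (p : α → Prop) [DecidablePred p]
    (L : List α), (∀ a ∈ L, p a → ∀ h ∈ K, f a * h * (f a)⁻¹ ∈ K) → (∀ a ∈ L, ¬ p a → f a ∈ K) →
    (L.map f).prod ∈ K → ((L.filter p).map f).prod ∈ K

/-- **GEN** (medium-strong, uses CSR BRN KNR GLS).  The root elements of a root which occurs in a commutator formula are products of root elements of other roots.
Proof.  `K = hX.K t'`.  (a) Let `w`, `w'` with `rt w ≠ rt w'`, `rt w + rt w' = rt t'`, `x ∈ ℚ`.  `rt w ≠ rt t'` (otherwise `rt w' = 0`, `rt_ne`) and `rt w' ≠ rt t'`, so the commutator of `ue (x e_w)` and `ue (1 e_w')` is in `K`; by `com` it is the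
product over `s ∈ L w w'` of the `ue (c_s x^p 1^q e_s)`.  A factor with `rt s ≠ rt t'` is in `K`, a factor with `rt s = rt t'` normalises `K` (KNR) and has `p = q = 1` (`L_rt`, `indep`: `p rt w + q rt w' = rt w + rt w'`); conversely `p = q = 1`
implies `rt s = rt t'`.  So by GLS (with the predicate `p = 1 ∧ q = 1`) the product of the `ue (c_s x e_s)` over the `s` with `p = q = 1` is in `K`.  It is `ue (x ∑ c_s e_s) = ue (x • br e w w')`, because all `e_s` commute (CSR;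
`mexp_add`, induction on the list), and `br e w w' = e w * e w' - e w' * e w =: z_w` (BRN).  (b) By `gen` `e t' = ∑_w q_w z_w` over a list of such pairs; the `z_w` are in the span of the `e s` with `rt s = rt t'` (by (a): `br`), so they commute (CSR), and
`ue (x e_t') = ∏_w ue (x q_w z_w) ∈ K` (`mexp_add`, `SU` of all matrices of `n`). -/
def GenStmt : Prop :=
  ∀ (X : Dat) (hX : MS X) (l l' : hX.ι), hX.rt l ≠ hX.rt l' → ∀ t ∈ hX.L l l', ∀ t' : hX.ι,
    hX.rt t' = hX.rt t.1 → ∀ x : ℚ, ue ((x : ℝ) • hX.e t') ∈ hX.K t'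

/-! ### Block C: cocycles of root elements (abstract group theory) -/

/-- a map `χ : G → H` on a group with root elements `u l x` which satisfy a commutator formula;
`cl l` is the root of `l` -/
structure RGM (ι κ G H : Type) [Group G] [Group H] where
  cl : ι → κ
  u : ι → ℚ → G
  add : ∀ l x y, u l (x + y) = u l x * u l y
  L : ι → ι → List (ι × ℕ × ℕ × ℚ)
  pq : ∀ l l', ∀ t ∈ L l l', 1 ≤ t.2.1 ∧ 1 ≤ t.2.2.1
  ne : ∀ l l', cl l ≠ cl l' → ∀ t ∈ L l l', cl t.1 ≠ cl l ∧ cl t.1 ≠ cl l'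
  nodup : ∀ l l', ((L l l').map fun t => t.1).Nodup
  com : ∀ l l', cl l ≠ cl l' → ∀ x y : ℚ, u l x * u l' y * (u l x)⁻¹ * (u l' y)⁻¹ =
    ((L l l').map fun t => u t.1 (t.2.2.2 * x ^ t.2.1 * y ^ t.2.2.1)).prod
  χ : G → H

section

variable {ι κ G H : Type} [Group G] [Group H]

/-- the group generated by the root elements -/
def RGM.Gam (D : RGM ι κ G H) : Subgroup G :=
  Subgroup.closure {g | ∃ (l : ι) (x : ℚ), g = D.u l x}

/-- the step of the root element `u l x` from the point `n` -/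
def RGM.V (D : RGM ι κ G H) (l : ι) (n : G) (x : ℚ) : H := (D.χ n)⁻¹ * D.χ (n * D.u l x)

/-- the steps of `u l` are invariant under the root elements of the other roots -/
def RGM.Inv (D : RGM ι κ G H) : Prop :=
  ∀ l l', D.cl l ≠ D.cl l' → ∀ n ∈ D.Gam, ∀ x y : ℚ, D.V l (n * D.u l' y) x = D.V l n x

/-- the root elements of the roots which occur in a commutator formula are products of root elements of other roots -/
def RGM.Gen (D : RGM ι κ G H) : Prop :=
  ∀ l l', D.cl l ≠ D.cl l' → ∀ t ∈ D.L l l', ∀ t', D.cl t' = D.cl t.1 → ∀ x : ℚ,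
    D.u t' x ∈ Subgroup.closure {g | ∃ (m : ι) (y : ℚ), D.cl m ≠ D.cl t' ∧ g = D.u m y}

end

/-- **NSM** (medium, no hypotheses; compare `Helper60_QSX/NSI.lean`).  The steps of a root element of a root which occurs in a commutator formula do not depend on the point.
Proof.  Let `K` be the group in `Gen` (for `t'`).  The set `H₀` of the `g ∈ Γ` with `V t' (n g) x = V t' n x` for all `n ∈ Γ`, `x ∈ ℚ` is a subgroup (for the inverse apply it at `n g⁻¹`) and contains the `u m y`, `cl m ≠ cl t'`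
(`Inv`), so it contains `K`.  If `cl m = cl t'`, then `u m y` is in the group of `Gen` for `m` (`cl m = cl t.1`), which is the same group `K`.  So `H₀` contains all `u m y`, so `H₀ = Γ`.  Take `n = 1`, `g = n`. -/
def NsmStmt : Prop :=
  ∀ (ι κ G H : Type) [Group G] [Group H] (D : RGM ι κ G H), D.Inv → D.Gen →
    ∀ l l', D.cl l ≠ D.cl l' → ∀ t ∈ D.L l l', ∀ t', D.cl t' = D.cl t.1 → ∀ n ∈ D.Gam, ∀ x : ℚ,
      D.V t' n x = D.V t' 1 x

/-- **CRM** (medium, uses NSM; copy of `Helper7_QSX/CRL.lean`).  The commutator relation for the steps, at every point `n`.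
Proof.  `V l (n) x * V l' (n u_l(x)) y = χ(n)⁻¹ χ(n u_l(x) u_l'(y))`, and `V l' (n u_l(x)) y = V l' n y` (`Inv`).  By `com`, `u_l(x) u_l'(y) = (∏_t u_t(z_t)) u_l'(y) u_l(x)`, `z_t = c_t x^p y^q`.  Along this path (induction on the
list) the value is `(∏_t V t (n_t) z_t) * V l' (n') y * V l (n' u_l'(y)) x` with `n_t, n' ∈ Γ`, `n' = n ∏_t u_t(z_t)`.  `V t (n_t) z_t = V t 1 z_t` (NSM).
`V l' (n') y = V l' n y` and `V l (n' u_l'(y)) x = V l n x` by `Inv` (the roots of the `t.1` are different from `cl l`, `cl l'` by `ne`; induction on the list). -/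
def CrmStmt : Prop :=
  ∀ (ι κ G H : Type) [Group G] [Group H] (D : RGM ι κ G H), D.Inv → D.Gen →
    ∀ l l', D.cl l ≠ D.cl l' → ∀ n ∈ D.Gam, ∀ x y : ℚ,
      D.V l n x * D.V l' n y * (D.V l n x)⁻¹ * (D.V l' n y)⁻¹ =
      ((D.L l l').map fun t => D.V t.1 1 (t.2.2.2 * x ^ t.2.1 * y ^ t.2.2.1)).prod

/-- **CMM** (medium-strong, uses CRM; copy of `Helper51_QSX/CMR.lean`).  The commutator relation for the powers of `D_l = V l 1 1`, natural exponents.
Proof.  Write `R_(lm)(x,y)` for the right hand side of CRM.  Fix `l` and let `𝒢_l` be the subgroup of `H` generated by the `V m 1 y`, `cl m ≠ cl l`, `y ∈ ℚ`.  For `s ∈ ℕ` let `g_s = V l (u_l(s)) 1`.  CRM at the point `n = u_l(s)`, with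
`V m (u_l(s)) y = V m 1 y` (`Inv`, `cl m ≠ cl l`): `g_s (V m 1 y) g_s⁻¹ = R_(lm)(1,y) V m 1 y`.  The right hand side is in `𝒢_l` (`ne`) and does not depend on `s`.  So conjugation by `g_s` maps `𝒢_l` to `𝒢_l` and on `𝒢_l` it is
equal to the conjugation by `g_0 = D_l` (`Subgroup.closure_induction`).  `V l 1 x = g_0 g_1 ⋯ g_(x-1)` for `x ∈ ℕ` (`u_l(s) u_l(1) = u_l(s+1)`, telescoping), so by induction on `x`:
(*) `(V l 1 x) h (V l 1 x)⁻¹ = D_l^x h D_l^(-x)` for `h ∈ 𝒢_l`.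
By (*) for `l` and `h = V l' 1 y ∈ 𝒢_l`, CRM at `n = 1` becomes `D_l^x (V l' 1 y) D_l^(-x) (V l' 1 y)⁻¹ = R_(ll')(x,y)`.  By (*) for `l'` and `h = D_l^(-x) ∈ 𝒢_(l')`:
`(V l' 1 y) D_l^(-x) (V l' 1 y)⁻¹ = D_l'^y D_l^(-x) D_l'^(-y)`. -/
def CmmStmt : Prop :=
  ∀ (ι κ G H : Type) [Group G] [Group H] (D : RGM ι κ G H), D.Inv → D.Gen →
    ∀ l l', D.cl l ≠ D.cl l' → ∀ x y : ℕ,
      (D.V l 1 1) ^ x * (D.V l' 1 1) ^ y * ((D.V l 1 1) ^ x)⁻¹ * ((D.V l' 1 1) ^ y)⁻¹ =
      ((D.L l l').map fun t => D.V t.1 1 (t.2.2.2 * (x : ℚ) ^ t.2.1 * (y : ℚ) ^ t.2.2.1)).prod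

/-! ### Block I: invariance and the brackets -/

/-- the abstract data of `AFM` (proved) -/
noncomputable def AFM.rg {X Y : Dat} {hX : MS X} {F : Type} [Field F] [Algebra ℝ F]
    {P : X.b →ₗ[ℝ] (Fin Y.m → ℝ)} (A : AFM X Y hX F P) :
    RGM hX.ι (X.b →ₗ[ℝ] ℝ) (Matrix (Fin X.m) (Fin X.m) ℝ)ˣ (Matrix (Fin Y.m) (Fin Y.m) F)ˣ where
  cl := hX.rt
  u l x := ue ((x : ℝ) • hX.e l)
  add l x y := by
    rw [Rat.cast_add]; exact ue_add' (hX.su_e l) _ _
  L := hX.L
  pq l l' t ht := ⟨(hX.L_rt l l' t ht).1, (hX.L_rt l l' t ht).2.1⟩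
  ne l l' h t ht := hX.t_ne l l' h t ht
  nodup := hX.L_nodup
  com l l' h x y := by
    rw [hX.com l l' h]
    congr 1
    refine List.map_congr_left fun t _ => ?_
    push_cast
    rfl
  χ := A.χ

theorem AFM.rg_Gam {X Y : Dat} {hX : MS X} {F : Type} [Field F] [Algebra ℝ F]
    {P : X.b →ₗ[ℝ] (Fin Y.m → ℝ)} (A : AFM X Y hX F P) : A.rg.Gam = hX.Gam := rfl

/-- **INM** (strong, uses FCP of QSX; copy of `Helper11_QSX/INA.lean`).  A homomorphism which separates the root elements of `rt l` from the others.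
Proof.  Let `r i k` mean `0 ≤ w_ik(a)` for all `a ∈ dual {l, l'}` and `q i k` mean: `w_ik(a) = 0` for all `a` with `rt l a = 0`.  `r` is transitive.  Face property: let `r i j`, `r j k`.  `q i j`, `q j k` imply `q i k` (sum).  Conversely
let `q i k` and `rt l a = 0`.  If `rt l' a ≥ 0`, then `a ∈ dual {l, l'}`, so `w_ij(a)`, `w_jk(a) ≥ 0` with sum `w_ik(a) = 0`: both are `0`.  If `rt l' a < 0`, apply this to `-a`.  FCP gives `G` and `π = kp q`.
All `V t n x = (χ n)⁻¹ χ (n u_t(x))` are unitriangular (`val`: they are `ue y`, and `mexp y - 1` is strictly upper triangular), and `supp` with `Ψ = {t}`, `z = x • e t` says that `V t n x i k ≠ 0`, `i < k`, implies that `w_ik ≥ 0` on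
`{rt t ≥ 0}`, so by `fks` (`hX.pos`) `w_ik = κ rt t`, `κ ≥ 0`, and `κ ≠ 0` because `w_ik ≠ 0`.
First claim (`rt t = rt l`): such an `(i,k)` satisfies `r i k` and `q i k`; so `V t n x ∈ G` and `kp q (V t n x) = V t n x`.
Second claim (`rt t = p rt l + p' rt l'` with `p ≥ 0`, `p' > 0`): `w_ik = κ rt t ≥ 0` on `dual {l, l'}`, so `r i k`; if `q i k`, then `rt t` vanishes on `ker (rt l)`, so `rt l'` vanishes on `ker (rt l)`, so `rt l' = c • rt l`
(`fks` for `rt l` and `rt l'`, or directly), which contradicts `nonprop`.  So `kp q (V t n x) = 1`. -/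
def InmStmt : Prop :=
  ∀ (X Y : Dat) (hX : MS X) (F : Type) [Field F] [Algebra ℝ F]
    (P : X.b →ₗ[ℝ] (Fin Y.m → ℝ)) (A : AFM X Y hX F P) (l l' : hX.ι), hX.rt l ≠ hX.rt l' →
    ∃ (G : Subgroup (Matrix (Fin Y.m) (Fin Y.m) F)ˣ) (π : G →* (Matrix (Fin Y.m) (Fin Y.m) F)ˣ),
      (∀ t : hX.ι, hX.rt t = hX.rt l → ∀ n ∈ hX.Gam, ∀ x : ℚ,
        ∃ h : A.rg.V t n x ∈ G, π ⟨_, h⟩ = A.rg.V t n x) ∧
      (∀ t : hX.ι, (∃ p p' : ℝ, 0 ≤ p ∧ 0 < p' ∧ hX.rt t = p • hX.rt l + p' • hX.rt l') →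
        ∀ n ∈ hX.Gam, ∀ x : ℚ, ∃ h : A.rg.V t n x ∈ G, π ⟨_, h⟩ = 1)

/-- **IVM** (medium, uses INM; copy of `Helper39_QSX/INV.lean`).  The invariance of the steps.
Proof.  Let `D = A.rg`, `u = u_l(x)`, `w = u_l'(y)`, `N(a,b) = χ(a)⁻¹ χ(b)` and `G`, `π` from INM.  `V l (n w) x = N(n w, n w u) = N(n w, n) N(n, n u) N(n u, n w u)`.
`N(n w, n) = V l' (n w) (-y)`, `N(n, n u) = V l n x`.  By `com` for `-x`, `y`: `u⁻¹ w u = (∏_t u_t(z_t)) w`, `z_t = c_t (-x)^p y^q` (`u_l(-x) = u⁻¹`), so `n w u = n u (∏_t u_t(z_t)) w` and `N(n u, n w u)` is a product of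
`V t (n_t) z_t`, `t ∈ L l l'`, and `V l' (n') y` with points `n_t, n' ∈ Γ` (induction on the list).  By INM all factors are in `G`; `π` is `1` on the factors of `t` and of `l'` (`rt t = p rt l + q rt l'`, `q ≥ 1`;
`rt l' = 0 • rt l + 1 • rt l'`) and the identity on `V l n x` and on `V l (n w) x`.  Applying `π`: `V l (n w) x = V l n x`. -/
def IvmStmt : Prop :=
  ∀ (X Y : Dat) (hX : MS X) (F : Type) [Field F] [Algebra ℝ F]
    (P : X.b →ₗ[ℝ] (Fin Y.m → ℝ)) (A : AFM X Y hX F P), A.rg.Inv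

/-- the matrices `C l = mlog ((χ 1)⁻¹ χ (ue (e l)))` -/
noncomputable def AFM.C {X Y : Dat} {hX : MS X} {F : Type} [Field F] [Algebra ℝ F]
    {P : X.b →ₗ[ℝ] (Fin Y.m → ℝ)} (A : AFM X Y hX F P) (l : hX.ι) :
    Matrix (Fin Y.m) (Fin Y.m) F :=
  mlog ((((A.χ 1)⁻¹ * A.χ (ue (hX.e l)) : (Matrix (Fin Y.m) (Fin Y.m) F)ˣ)) : Matrix _ _ F)

/-- **CVL** (easy, uses LGM NFL of QSX).  The matrices `C l` and the first steps.
Proof.  `A.rg.V l 1 1 = (χ 1)⁻¹ χ (1 * ue ((1 : ℝ) • e l)) = (χ 1)⁻¹ χ (ue (e l))` (`((1 : ℚ) : ℝ) = 1`, `one_smul`, `one_mul`).  By `val` (`1 ∈ Γ`, `ue (e l) ∈ Γ`) it is `ue y`, `y ∈ n_F`, `SU y` (NFL), so `C l = mlog (mexp y) = y` (LGM). -/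
def CvlStmt : Prop :=
  ∀ (X Y : Dat) (hX : MS X) (F : Type) [Field F] [Algebra ℝ F]
    (P : X.b →ₗ[ℝ] (Fin Y.m → ℝ)) (A : AFM X Y hX F P) (l : hX.ι),
    A.C l ∈ Y.nF F ∧ SU (A.C l) ∧ A.rg.V l 1 1 = ue (A.C l) ∧
      (A.χ 1)⁻¹ * A.χ (ue (hX.e l)) = ue (A.C l)

/-- **TAD** (medium, uses LGM NFL ROO of QSX, CVL CSR IVM NSM GEN).  The steps in a root space which occurs in a commutator formula are additive (rational parameters).
Proof.  `D = A.rg`; `D.Gen` is GEN (`hX.K t'` is the group in `RGM.Gen`), `D.Inv` is IVM.  For `t'` in the class of `t.1` the steps `V t' n x` do not depend on `n ∈ Γ` (NSM), so `f x = V t' 1 x` satisfies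
`f (x + y) = V t' 1 x * V t' (u_t'(x)) y = f x * f y`, it is unitriangular (`val`), so `V t' n x = f x = ue (x • mlog (f 1)) = ue (x • C t')` (ROO, CVL).  First claim.  Second claim: let `z = ∑_(t' ∈ S) x_t' e_t'`, `S` a finite set of elements
of the class of `t.1`.  Induction on `S`: `ue z = ∏ ue (x_t' e_t')` (CSR, `mexp_add`), and `χ(n)⁻¹ χ(n g u_t'(x)) = χ(n)⁻¹ χ(n g) * V t' (n g) x`, so `χ(n)⁻¹ χ(n ue z) = ∏ ue (x_t' C t')` in any order; since the order of two factors can be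
exchanged on the left hand side (`u_t'`, `u_t''` commute), `ue (x C t')` and `ue (y C t'')` commute for all rational `x`, `y`, so for all natural numbers; comparing the coefficients of `x y` (polynomials in `x`, `y` which agree at all natural numbers; or: `mlog` of
a matrix which commutes with `g` commutes with `g`, twice) `C t'` and `C t''` commute (third claim), and the product is `ue (∑ x_t' C t')` (`mexp_add`). -/
def TadStmt : Prop :=
  ∀ (X Y : Dat) (hX : MS X) (F : Type) [Field F] [Algebra ℝ F]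
    (P : X.b →ₗ[ℝ] (Fin Y.m → ℝ)) (A : AFM X Y hX F P) (l l' : hX.ι), hX.rt l ≠ hX.rt l' →
    ∀ t ∈ hX.L l l',
      (∀ t' : hX.ι, hX.rt t' = hX.rt t.1 → ∀ n ∈ hX.Gam, ∀ x : ℚ,
        (A.χ n)⁻¹ * A.χ (n * ue ((x : ℝ) • hX.e t')) = ue ((x : ℝ) • A.C t')) ∧
      (∀ (S : Finset hX.ι) (x : hX.ι → ℚ), (∀ t' ∈ S, hX.rt t' = hX.rt t.1) → ∀ n ∈ hX.Gam,
        (A.χ n)⁻¹ * A.χ (n * ue (∑ t' ∈ S, ((x t' : ℚ) : ℝ) • hX.e t')) =
          ue (∑ t' ∈ S, ((x t' : ℚ) : ℝ) • A.C t')) ∧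
      (∀ t' t'' : hX.ι, hX.rt t' = hX.rt t.1 → hX.rt t'' = hX.rt t.1 →
        A.C t' * A.C t'' = A.C t'' * A.C t')

/-- **BRM** (medium-strong, uses NFL SPT COF of QSX, CVL TAD IVM GEN CMM; copy of `Helper10_QSX/BRK.lean`).  The brackets over the residue field.
Proof.  Let `D = A.rg`, `D_l = V l 1 1 = ue (C l)` (CVL).
(1) `C l ∈ n_F`: CVL.  (2) `D_l ≠ 1` (`nondeg`, `n = 1`, `x = 1`), `ue 0 = 1`: so `C l ≠ 0`.
(3) Let `r i k` mean: there is `κ > 0` with `w_ik = κ rt l`; it is transitive.  By `supp` (`Ψ = {l}`) and `fks` (`hX.pos`) `D_l` is supported on `r` (`κ ≠ 0` since `w_ik ≠ 0`); so is `C l` (SPT; entries with `k ≤ i` of `C l`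
vanish, `SU (C l)`).
(4) Let `rt l ≠ rt l'`, `t ∈ L l l'`: `V t 1 z = ue (z • C t)` (TAD, first claim, `n = 1`).  `D_l^x = ue (x • C l)` (`ue_add'`, induction on `x`).  So CMM (with IVM, GEN) says that the hypothesis of COF holds for `A = C l`, `B = C l'`, the
family `C` and the list `L l l'` (cast `ℚ → ℝ`); its conclusion is `C l * C l' - C l' * C l = hX.br C l l'`. -/
def BrmStmt : Prop :=
  ∀ (X Y : Dat) (hX : MS X) (F : Type) [Field F] [Algebra ℝ F]
    (P : X.b →ₗ[ℝ] (Fin Y.m → ℝ)) (A : AFM X Y hX F P), GoodM X Y hX F P A.C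

/-! ### Block E: the rational short form -/

/-- Data with root spaces of arbitrary dimension, short form: `n` has a basis of rational root
vectors; the commutator formula is automatic. -/
structure MRS (X : Dat) where
  ι : Type
  fin : Fintype ι
  dec : DecidableEq ι
  e : ι → Matrix (Fin X.m) (Fin X.m) ℝ
  rat : ∀ l i j, ∃ q : ℚ, e l i j = (q : ℝ)
  span_e : Submodule.span ℝ (Set.range e) = X.n
  lin : LinearIndependent ℝ e
  rt : ι → X.b →ₗ[ℝ] ℝ
  wt : ∀ l, ∀ c : X.b, diagonal (c : Fin X.m → ℝ) * e l - e l * diagonal (c : Fin X.m → ℝ) =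
    rt l c • e l
  pos : ∃ a : X.b, ∀ l, 0 < rt l a
  sep : ∀ a : X.b, (∀ l, rt l a = 0) → a = 0
  nonprop : ∀ l l', rt l ≠ rt l' → ∀ c : ℝ, rt l ≠ c • rt l'
  /-- the root vectors of a root which is a combination `p rt l + q rt l'` are combinations of
  brackets of root vectors of different roots -/
  gen : ∀ t l l', rt l ≠ rt l' → ∀ p q : ℕ, 1 ≤ p → 1 ≤ q →
    rt t = (p : ℝ) • rt l + (q : ℝ) • rt l' →
    e t ∈ Submodule.span ℝ {z | ∃ w w', rt w ≠ rt w' ∧ rt w + rt w' = rt t ∧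
      z = e w * e w' - e w' * e w}
  J : Type
  comp : ι → J
  top : J → ι
  comp_top : ∀ l, comp (top (comp l)) = comp l
  comp_rt : ∀ l l', rt l = rt l' → comp l = comp l'
  climb : ∀ l, rt l ≠ rt (top (comp l)) → ∀ x ∈ Submodule.span ℝ (e '' {l' | rt l' = rt l}),
    (∀ k, rt k ≠ rt l → x * e k - e k * x = 0) → x = 0
  rank1 : ∀ l, (∀ l', comp l' = comp l → rt l' = rt l) → ∀ l', comp l' = comp l → l' = l
  scal : ∀ κ : J → ℝ, (∀ j, 0 < κ j) → ∃ S : X.b →ₗ[ℝ] X.b, ∀ l a, rt l (S a) = κ (comp l) * rt l a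

attribute [instance] MRS.fin MRS.dec

/-- homogeneous polynomial families of elements of `exp n`, for a pair `(l, l')` of roots -/
structure FamM {X : Dat} (hX : MRS X) (l l' : hX.ι) (G : Matrix (Fin X.m) (Fin X.m) R2) : Prop where
  uu : UU G
  mem : ∀ x y, ∃ z ∈ X.n, evM x y G = mexp z
  hom : ∀ (a : X.b) (x y : ℝ), diagonal (fun i => Real.exp ((a : Fin X.m → ℝ) i)) * evM x y G *
    diagonal (fun i => Real.exp (-(a : Fin X.m → ℝ) i)) =
      evM (Real.exp (hX.rt l a) * x) (Real.exp (hX.rt l' a) * y) G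
  triv : ∀ x, evM x 0 G = 1 ∧ evM 0 x G = 1
  rat : ∀ i j, ∃ q : ℚ, evM 1 1 G i j = (q : ℝ)

/-- **CAM** (easy-medium, uses CHA of QSX).  A rational matrix in the real span of a set of rational matrices is a rational combination of finitely many of them.
Proof.  Take a subset `B` of `S` which is linearly independent over `ℝ` and has the same span (`exists_linearIndependent`); it is finite (finite dimensional space), and `w = ∑_(b ∈ B) c_b b` (`mem_span_finset` or `Finsupp`); by CHA (for the family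
`Subtype.val : B → _`) all `c_b` are rational. -/
def CamStmt : Prop :=
  ∀ (m : ℕ) (S : Set (Matrix (Fin m) (Fin m) ℝ)) (w : Matrix (Fin m) (Fin m) ℝ),
    (∀ z ∈ S, ∀ i j, ∃ q : ℚ, z i j = (q : ℝ)) → (∀ i j, ∃ q : ℚ, w i j = (q : ℝ)) →
    w ∈ Submodule.span ℝ S →
    ∃ W : List (Matrix (Fin m) (Fin m) ℝ × ℚ), (∀ x ∈ W, x.1 ∈ S) ∧
      w = (W.map fun x => ((x.2 : ℚ) : ℝ) • x.1).sum

/-- **CBM** (strong, uses CHA LGM of QSX; copy of `Helper62_QSX/CHB.lean`).  The logarithm of a homogeneous family is a sum of monomials.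
Proof.  `Z = mlog G` over `R2`; `evM x y Z = mlog (evM x y G)` (ring homomorphism) is in `n` (LGM: `mlog (mexp z) = z`).  Let `φ_t` be real linear functionals on the matrices with `φ_t (e_s) = δ_ts`, and `z_t = ∑_ij φ_t(E_ij) Z_ij ∈ R2`:
`evM x y Z = ∑_t z_t(x,y) e_t`.  By `wt` the nonzero entries `(i,j)` of `e_t` satisfy `a_i - a_j = rt t a`, so conjugation with `diag (exp a)` multiplies `e_t` by `exp (rt t a)`, and `mlog` commutes with conjugation: `hom` gives
`z_t(exp(rt l a) x, exp(rt l' a) y) = exp(rt t a) z_t(x,y)` for all `x, y`; so (`MvPolynomial.funext`, coefficients) the coefficient `c_pq` of `z_t` satisfies `c_pq (exp((p rt l + q rt l')(a)) - exp(rt t a)) = 0` for all `a`: if `c_pq ≠ 0` then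
`rt t = p rt l + q rt l'`.  `triv` and `mlog 1 = 0`: `z_t(x,0) = z_t(0,y) = 0`, so `c_pq ≠ 0` implies `p, q ≥ 1`.  `(p,q)` is unique: `rt l`, `rt l'` are linearly independent (`nonprop`, `rt l' ≠ 0` by `pos`).  So `z_t = c_t X^p Y^q` with
`c_t = z_t(1,1)`, the coordinate of `mlog (evM 1 1 G)`, a rational matrix (`rat`; `mlog` has rational coefficients): CHA.  (`P t = (p, q)`, `c t = 0` and `P t` arbitrary if `z_t = 0`.) -/
def CbmStmt : Prop :=
  ∀ (X : Dat) (hX : MRS X) (l l' : hX.ι), hX.rt l ≠ hX.rt l' →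
    ∀ G : Matrix (Fin X.m) (Fin X.m) R2,
    FamM hX l l' G → ∃ (c : hX.ι → ℚ) (P : hX.ι → ℕ × ℕ),
      (∀ t, c t ≠ 0 → 1 ≤ (P t).1 ∧ 1 ≤ (P t).2 ∧
        hX.rt t = ((P t).1 : ℝ) • hX.rt l + ((P t).2 : ℝ) • hX.rt l') ∧
      ∀ x y : ℝ, evM x y G = mexp (∑ t, (((c t : ℚ) : ℝ) * x ^ (P t).1 * y ^ (P t).2) • hX.e t)

/-- **CCM** (medium, uses MCJ BCH LGM of QSX; copy of `Helper31_QSX/CHC.lean`).  Homogeneous families: products, monomial factors, the commutator.
Proof.  (i) products: BCH for `mem` (`ue`), the rest entrywise (`evM` is multiplicative).  (ii) `G = mexp (c X^p Y^q e_t)` (over `R2`, `e_t` mapped to `R2`): `evM x y G = mexp (c x^p y^q e_t)`; `hom`: the nonzero entries `(i,j)` of `e_t` satisfy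
`a_i - a_j = rt t a = p rt l a + q rt l' a`, so conjugation by `diag (exp a)` multiplies `e_t` by `exp (p rt l a + q rt l' a)`; `triv` because `p, q ≥ 1`; `rat`: `mexp` has rational coefficients.  (iii) the commutator
`mexp (X e_l) mexp (Y e_l') mexp (-X e_l) mexp (-Y e_l')`: the same; `triv`: for `y = 0` it is `mexp (x e_l) mexp (- x e_l) = 1`. -/
def CcmStmt : Prop :=
  ∀ (X : Dat) (hX : MRS X) (l l' : hX.ι),
    (∀ G H : Matrix (Fin X.m) (Fin X.m) R2, FamM hX l l' G → FamM hX l l' H → FamM hX l l' (G * H)) ∧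
    (∀ (t : hX.ι) (p q : ℕ) (c : ℚ), 1 ≤ p → 1 ≤ q →
      hX.rt t = (p : ℝ) • hX.rt l + (q : ℝ) • hX.rt l' →
      ∃ G, FamM hX l l' G ∧ ∀ x y : ℝ, evM x y G = mexp (((c : ℝ) * x ^ p * y ^ q) • hX.e t)) ∧
    ∃ G, FamM hX l l' G ∧ ∀ x y : ℝ, evM x y G =
      mexp (x • hX.e l) * mexp (y • hX.e l') * mexp (-(x • hX.e l)) * mexp (-(y • hX.e l'))

/-- **CKM** (strong, uses BCH LGM of QSX; copy of `Helper66_QSX/CHK.lean`).  Stripping the factors of lowest height, at one point.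
Proof.  Say that a matrix `x` has weight `ρ : X.b → ℝ` if `(a_i - a_j - ρ(a)) x_ij = 0` for all `a`, `i`, `j`.  Let `W_K` be the span of the matrices of weight `p rt l + q rt l'`, `p, q ∈ ℕ`, `1 ≤ p`, `1 ≤ q`, `K ≤ p + q`.  Products: `W_K W_K' ⊆ W_(K+K')`, and
`W_K ⊆ W_K'` for `K' ≤ K`.  `e_t ∈ W_(h t)` (`wt`), so `z ∈ W_K`, `mexp z ∈ 1 + z + W_(2K)`, and `∏ mexp (- z_t e_t) ∈ 1 - ∑_(t ∈ S) z_t e_t + W_(2K)` (`1 ≤ K`, so `2 K ≥ K + 1`).  The product is in `1 + W_(K+1)`, because `z - ∑_(t ∈ S) z_t e_t ∈ W_(K+1)`.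
So `x = mlog (product) ∈ W_(K+1)`, and `x ∈ n` by BCH, LGM: `x = ∑ x_t e_t`.  The entries of weight `ρ` of `x` (the projection `part`-like map: keep the entries `(i,j)` with `a_i - a_j = ρ(a)` for all `a`) are `0` unless `ρ = p rt l + q rt l'` with
`p, q ≥ 1`, `p + q ≥ K + 1`; for `ρ = rt t` they are the sum of the `x_t' e_t'` over the `t'` with `rt t' = rt t`, which is not `0` if `x_t ≠ 0` (`lin`).  So `x_t ≠ 0` implies `rt t = p rt l + q rt l'`, `p, q ≥ 1`, `p + q ≥ K + 1`.  (This is the only change: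
in QSX the sum has one term.) -/
def CkmStmt : Prop :=
  ∀ (X : Dat) (hX : MRS X) (l l' : hX.ι), hX.rt l ≠ hX.rt l' → ∀ (K : ℕ), 1 ≤ K →
    ∀ (z : hX.ι → ℝ) (h : hX.ι → ℕ), (∀ t, z t ≠ 0 → K ≤ h t ∧ ∃ p q : ℕ, 1 ≤ p ∧ 1 ≤ q ∧ p + q = h t ∧
      hX.rt t = (p : ℝ) • hX.rt l + (q : ℝ) • hX.rt l') →
    ∀ S : List hX.ι, S.Nodup → (∀ t, z t ≠ 0 → h t = K → t ∈ S) → (∀ t ∈ S, z t ≠ 0 ∧ h t = K) →
    ∃ x : hX.ι → ℝ, mexp (∑ t, z t • hX.e t) * (S.map fun t => mexp (-(z t • hX.e t))).prod =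
        mexp (∑ t, x t • hX.e t) ∧
      ∀ t, x t ≠ 0 → ∃ p q : ℕ, 1 ≤ p ∧ 1 ≤ q ∧ K + 1 ≤ p + q ∧
        hX.rt t = (p : ℝ) • hX.rt l + (q : ℝ) • hX.rt l'

/-- **CDM** (medium-strong, uses LGM of QSX, CBM CCM CKM; copy of `Helper10_QSX/CHD.lean`).  Every homogeneous family is a product of monomial factors.
Proof.  For `t` with `rt t = p rt l + q rt l'`, `p, q ≥ 1` (then `(p,q)` is unique, `h t = p + q`).  Let `H` be an upper bound of the `h t`.  Claim for `K ≥ 1`, by induction on `H + 1 - K`: a family `G` whose monomials (CBM) all have `h t ≥ K` is a product over a list with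
different `t`, all of height `≥ K`.  `K > H`: `G = 1`, empty list.  Step: `S` = a list of the `t` with `c t ≠ 0`, `h t = K`; `G' = G ∏_(t ∈ S) mexp (- c_t X^p Y^q e_t)` (CCM) is a homogeneous family, its monomials `c'_t X^p Y^q` (CBM) are all of height `≥ K + 1`:
evaluate at `(1,1)`, CKM gives `evM 1 1 G' = mexp (∑ x_t e_t)` with all heights `≥ K + 1`, and `c'_t = x_t` (LGM: `mlog`, and `lin`).  By induction `G'` is a product over a list `L'` with heights `≥ K + 1`; `G = G' ∏_(t ∈ reverse S) mexp (c_t X^p Y^q e_t)`. -/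
def CdmStmt : Prop :=
  ∀ (X : Dat) (hX : MRS X) (l l' : hX.ι), hX.rt l ≠ hX.rt l' →
    ∀ G : Matrix (Fin X.m) (Fin X.m) R2,
    FamM hX l l' G → ∃ L : List (hX.ι × ℕ × ℕ × ℚ),
      (∀ t ∈ L, 1 ≤ t.2.1 ∧ 1 ≤ t.2.2.1 ∧
        hX.rt t.1 = (t.2.1 : ℝ) • hX.rt l + (t.2.2.1 : ℝ) • hX.rt l') ∧
      (L.map fun t => t.1).Nodup ∧
      ∀ x y : ℝ, evM x y G =
        (L.map fun t => mexp (((t.2.2.2 : ℝ) * x ^ t.2.1 * y ^ t.2.2.1) • hX.e t.1)).prod

/-- **CVM** (medium, uses CAM CCM CDM; copy of `Helper15_QSX/CHV.lean`).  The short form implies the long form.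
Proof.  `L l l'`: for `rt l ≠ rt l'` the list of CDM for the commutator family of CCM (iii), for `rt l = rt l'` the empty list (decide with `Classical`).  `com`: `ue` of the strictly upper triangular matrices `x • e l` is `mexp` (`ue_val`, `ue_inv_val`, `List.prod` of
units).  `gen`: let `t ∈ L l l'`, `rt t' = rt t.1 = p rt l + q rt l'`; `MRS.gen` and CAM (the brackets of rational matrices are rational) give `e t'` as a rational combination of brackets; choose `w`, `w'` for each.  `L_comp`: let `t` be in the list of `l`, `l'` and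
`κ : J → ℝ` positive, `S = scal κ`: `κ(comp t) (p rt l + q rt l') = κ(comp l) p rt l + κ(comp l') q rt l'` (apply `rt t = p rt l + q rt l'` at `S a`), so by linear independence of `rt l`, `rt l'` (`nonprop`, `pos`)
`κ(comp t) = κ(comp l) = κ(comp l')` for every positive `κ` (`κ = 2` at one component, `1` elsewhere): `comp t = comp l = comp l'`.  The other fields are the same. -/
def CvmStmt : Prop := ∀ X : Dat, Nonempty (MRS X) → Nonempty (MS X)

end Pool.Agent.QSN
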