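import Pool.Agent.QSN.StmtsA

/-!
# Squad QSN, part C (helper19): from the matrices over the residue field to `AlgEmb`

Rows `GRN MIN TRN CLN ALN ALM`.  Most of them are versions of the rows `GRD TRF CLM ALE ALG` of squad
QSX (`Pool.Agent.QSX`, files `Helper86_QSX/GRD`, `Helper10_QSX/TRF`, `Helper2_QSX/CLM`,
`Helper83_QSX/ALE`, `Helper85_QSX/ALG`): read them first.  The file StmtsA (helper18) has the basic
lemmas `MS.su_e`, `MS.e_mem`, `MS.rt_ne`, `MS.indep` (proved) and the rows BRN, CSR, WTX used here.
One statement per row; every docstring contains a complete proof.  A row is proved as a theorem with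
the statements named after the word Uses as hypotheses, in this order.
-/

set_option autoImplicit false

namespace Pool.Agent.QSN

open Matrix Finset Pool.Agent.QSX

/-- **Graded families** (`GrM` with the last clause only for the components of indices, as in `GrC`
of QSX). -/
def GrN (X Y : Dat) (hX : MS X) (F : Type) [Field F] [Algebra ℝ F]
    (P : X.b →ₗ[ℝ] (Fin Y.m → ℝ)) (κ : hX.J → ℝ)
    (C : hX.ι → Matrix (Fin Y.m) (Fin Y.m) F) : Prop :=
  (∀ l, C l ∈ Y.nF F) ∧
  (∀ l i k, C l i k ≠ 0 → ∀ a : X.b, P a i - P a k = κ (hX.comp l) * hX.rt l a) ∧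
  (∀ l l', hX.rt l ≠ hX.rt l' → C l * C l' - C l' * C l = hX.br C l l') ∧
  (∀ l₀ : hX.ι, LinearIndependent F
    fun t : {t : hX.ι // hX.rt t = hX.rt (hX.top (hX.comp l₀))} => C t.1)

/-- **Row GRN** (the graded part; version of `GRD`). Uses: `PmuStmt`, `PnfStmt` (StmtsB of QSX).
Medium: copy of `Helper86_QSX/GRD.lean`.

Proof. For `j : hX.J` the matrix `C (top j)` has a nonzero entry `(i, k)`, and there is a number
`> 0`, say `s j`, with `P a i - P a k = s j * rt (top j) a` for all `a` (choice). Define `κ j = s j`
if `hX.One j`, and `κ j = 1` otherwise (`by classical`). Put `ρ l a = κ (comp l) * rt l a` and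
`C' l = part P (ρ l) (C l)`.
(1) `C' l ∈ Y.nF F` by `PNF` (with the linear form `κ (comp l) • rt l`). (2) The support condition is
immediate from the definition of `part`.
(3) Let `rt l ≠ rt l'`. As in `GRD`: `rt l`, `rt l'` are linearly independent: if
`s rt l + t rt l' = s' rt l + t' rt l'` (all `a`) and `s ≠ s'` then
`rt l = ((t' - t) / (s - s')) • rt l'`, against `nonprop l l'`; so `s = s'`, and then
`(t - t') * rt l' a = 0` for all `a`; `rt l' ≠ 0 • rt l` by `nonprop l' l`, so `t = t'`.
By `PMU` (with `r = rt l`, `r' = rt l'`, the `κ` being `κ (comp l)`, `κ (comp l')`) for `(C l, C l')`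
and for `(C l', C l)`, `C' l * C' l' - C' l' * C' l = part P (ρ l + ρ l') (C l * C l' - C l' * C l)`
`= part P (ρ l + ρ l') (br C l l') = ∑ c_t part P (ρ l + ρ l') (C t)` over the factors `t` of
`L l l'` with `p = q = 1` (`part` is additive and commutes with real scalars).  For such a `t`:
`comp t = comp l = comp l'` (`L_comp`) and `rt t = rt l + rt l'` (`L_rt`), so
`ρ l a + ρ l' a = κ (comp t) * rt t a = ρ t a` and the summand is `c_t C' t`.
(4) Let `l₀` be given, `j = comp l₀`; `comp (top j) = j` (`comp_top l₀`). If `rt t = rt (top j)` then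
`comp t = comp (top j) = j` (`comp_rt`). Case not `One j`: `κ j = 1`, so
`C' t = part P (fun a => rt t a) (C t)` for these `t`, and the claim is the hypothesis `TopInj` for
`j`. Case `One j`: by `rank1` for `top j` (every `l'` with `comp l' = comp (top j) = j` has
`rt l' = rt (top j)`) every `t` with `comp t = j` is `top j`; so the index type has only the element
`top j` (`Subsingleton`), and `C' (top j) ≠ 0`, because its entry `(i, k)` chosen above is an entry of
weight `κ j * rt (top j) = ρ (top j)` (`linearIndependent_unique_iff` or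
`LinearIndependent` of a subsingleton family of nonzero vectors). -/
def GrnStmt : Prop :=
  ∀ (X Y : Dat) (hX : MS X) (F : Type) [Field F] [Algebra ℝ F]
    (P : X.b →ₗ[ℝ] (Fin Y.m → ℝ)), (∀ a, P a ∈ Y.b) →
    ∀ C : hX.ι → Matrix (Fin Y.m) (Fin Y.m) F, GoodM X Y hX F P C → TopInj X Y hX F P C →
      ∃ κ : hX.J → ℝ, (∀ j, 0 < κ j) ∧
        ∃ C' : hX.ι → Matrix (Fin Y.m) (Fin Y.m) F, GrN X Y hX F P κ C'

/-- **Row MIN** (linear independence and minors). Uses: nothing. Easy to medium.

Proof. From right to left: if `∑ t, a t • v t = 0` then the entries at the places `p s` say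
`M.mulVec a = 0` for the matrix `M s t = v t (p s).1 (p s).2` of nonzero determinant, so `a = 0`
(`Matrix.eq_zero_of_mulVec_eq_zero`, `Fintype.linearIndependent_iff`).
From left to right: for a place `q : Fin m × Fin m` let `c q : T → F`, `c q t = v t q.1 q.2`. The span
of the vectors `c q` is everything: otherwise there is a nonzero linear functional on `T → F`, that is
`z ↦ ∑ t, a t * z t` with `a ≠ 0`, which vanishes at all `c q` (`Submodule.exists_le_ker_of_lt_top`),
and then `∑ t, a t • v t = 0`. By `exists_linearIndependent F (Set.range c)` there is a set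
`b ⊆ range c` of linearly independent vectors with the same span, so `b` is a basis of `T → F`
(`Module.Basis.mk`), it has `card T` elements (`Module.finrank_eq_card_basis`, `Module.finrank_pi`),
so there is a bijection `f : T ≃ b`; choose `p s` with `c (p s) = f s`. The rows of the square matrix
`M s t = v t (p s).1 (p s).2 = c (p s) t` are linearly independent
(`Matrix.linearIndependent_rows_iff_isUnit`), so `det M ≠ 0`
(`Matrix.isUnit_iff_isUnit_det`). -/
def MinStmt : Prop :=
  ∀ (F : Type) [Field F] (m : ℕ) (T : Type) [Fintype T] [DecidableEq T]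
    (v : T → Matrix (Fin m) (Fin m) F), LinearIndependent F v ↔
      ∃ p : T → Fin m × Fin m, (Matrix.of fun s t : T => v t (p s).1 (p s).2).det ≠ 0

/-- **Row TRN** (the graded family over the real numbers; version of `TRF`). Uses: `TraStmt`,
`NfrStmt` (StmtsB of QSX), `MIN`. Medium: copy of `Helper10_QSX/TRF.lean`.

Proof. For each `l` apply `NFR` with `ρ = κ (comp l) • rt l`: `d l`, `y l r`, `c l r`
(`r : Fin (d l)`) with `C l = ∑ r, c l r • (y l r).map (algebraMap ℝ F)`. Let
`σ = Σ l, Fin (d l)` (finite), `c : σ → S.FF`, and for `l` the matrix of polynomials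
`M l i k = ∑ r, MvPolynomial.C (y l r i k) * MvPolynomial.X ⟨l, r⟩ : MvPolynomial σ ℝ`. Then
`aeval c (M l i k) = C l i k`, and for a real point `x` the numbers `eval x (M l i k)` are the
entries of `C' l = ∑ r, x ⟨l, r⟩ • y l r`. Let `E` be the set of the polynomials (entries)
`(M l * M l' - M l' * M l - br M l l') i k`, `rt l ≠ rt l'` (write `br` out; the ring homomorphisms
`aeval c` and `eval x` applied entrywise commute with products, differences, list sums and real
scalars): they vanish at `c` by the brackets of `C`. For each `l₀` let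
`T = {t // rt t = rt (top (comp l₀))}` (finite; `Classical.decEq`) and let `p` be the places of `MIN`
for `v t = C t` over `S.FF`; let `N` be the set of the polynomials
`det (Matrix.of fun s t : T => M t (p s).1 (p s).2)`, one for each `l₀` (`Finset.univ.image`). The
value `aeval c` of this determinant is the determinant of the values (`RingHom.map_det`,
`AlgHom.map_det`), not `0`. `TRA` gives `x`. Then `C' l ∈ Y.n`, so `C' l ∈ Y.nF ℝ`
(`Submodule.subset_span`, `algebraMap ℝ ℝ = id`), the support condition holds since it holds for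
every `y l r`, the brackets hold because the polynomials of `E` vanish at `x`, and the last clause of
`GrN` holds by `MIN` from right to left, since `eval x` of the polynomial in `N` is the minor of the
`C' t`. -/
def TrnStmt : Prop :=
  ∀ (X Y : Dat) (hX : MS X) (S : Scale) (P : X.b →ₗ[ℝ] (Fin Y.m → ℝ)), (∀ a, P a ∈ Y.b) →
    ∀ (κ : hX.J → ℝ) (C : hX.ι → Matrix (Fin Y.m) (Fin Y.m) S.FF), GrN X Y hX S.FF P κ C →
      ∃ C' : hX.ι → Matrix (Fin Y.m) (Fin Y.m) ℝ, GrN X Y hX ℝ P κ C'

/-- **Row CLN** (all root spaces are injective; version of `CLM`). Uses: `BRN` (StmtsA). Medium.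

Proof. By `lin` there is a linear map `T` on the space of all matrices with `T (e l) = C l` (extend
the linearly independent family `e` to a basis, `Module.Basis.extend`, `Module.Basis.constr`, or
`LinearIndependent.exists_extend`-like lemmas on the span and `LinearMap.exists_extend`). `T` is
linear, so `T (br e l l') = br C l l'` (`br` is a list sum), and by `BRN`
(*) `T (e l * e k - e k * e l) = C l * C k - C k * C l` whenever `rt l ≠ rt k`.
Say that `l₀` is bad if the family `C t`, `rt t = rt l₀`, is not linearly independent. Let `a₊` be as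
in `pos`, suppose that there is a bad `l₀` and take one with `rt l₀ a₊` maximal
(`Finset.exists_max_image`). By the last hypothesis `rt l₀ ≠ rt (top (comp l₀))` (otherwise the two
index types agree). There are numbers `z t` (`rt t = rt l₀`), not all `0`, with `∑ z t • C t = 0`
(`Fintype.not_linearIndependent_iff`). Put `x = ∑ z t • e t` (a combination of the `e t` with
`rt t = rt l₀`), so `x ≠ 0` by `lin` and `T x = 0`. By `climb` (contrapositive) there is `k` with
`rt k ≠ rt l₀` and `u = x * e k - e k * x ≠ 0`. By linearity and (*) `T u = T x * C k - C k * T x = 0`.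
By `BRN` and `L_rt` (`p = q = 1`) `u` is a combination of vectors `e s` with
`rt s = rt l₀ + rt k`: write `u = ∑ s, y s • e s` with `y s = 0` unless `rt s = rt l₀ + rt k`
(membership in the span of `e '' {s | rt s = rt l₀ + rt k}`). `u ≠ 0`, so there is `s₀` with
`y s₀ ≠ 0`; then `rt s₀ = rt l₀ + rt k` and `∑ y s • C s = T u = 0`, a nontrivial relation between the
`C s` with `rt s = rt s₀`. So `s₀` is bad, and `rt s₀ a₊ = rt l₀ a₊ + rt k a₊ > rt l₀ a₊`, a
contradiction. -/
def ClnStmt : Prop :=
  ∀ (X : Dat) (hX : MS X) (m : ℕ) (C : hX.ι → Matrix (Fin m) (Fin m) ℝ),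
    (∀ l l', hX.rt l ≠ hX.rt l' → C l * C l' - C l' * C l = hX.br C l l') →
    (∀ l₀ : hX.ι, LinearIndependent ℝ
      fun t : {t : hX.ι // hX.rt t = hX.rt (hX.top (hX.comp l₀))} => C t.1) →
    ∀ l₀ : hX.ι, LinearIndependent ℝ fun t : {t : hX.ι // hX.rt t = hX.rt l₀} => C t.1

/-- **Row ALN** (the algebraic embedding; version of `ALE`). Uses: `BRN`, `CSR` (StmtsA). Medium (strong):
copy of `Helper83_QSX/ALE.lean` with two changes, (2) and (4).

Proof. `hX.scal` for `κ⁻¹` gives `D : X.b →ₗ X.b` with `rt l (D a) = (κ (comp l))⁻¹ * rt l a`. Put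
`P' = P ∘ D`; `P' a ∈ Y.b`. If `C l i k ≠ 0` then
`P' a i - P' a k = κ (comp l) * rt l (D a) = rt l a`.
`e l ∈ X.n`; the vectors `⟨e l, _⟩` are a basis of `X.n` (`lin`, `span_e`; `Module.Basis.mk` or
`Module.Basis.span`), let `T` be the linear map with `T ⟨e l, _⟩ = C l` (`Module.Basis.constr`).
(1) `T x ∈ Y.n`: `C l ∈ Y.nF ℝ = Y.n` (`algebraMap ℝ ℝ = RingHom.id`, span of a submodule).
(2) `T` injective: the `C l` are linearly independent. Let `∑ z l • C l = 0` and let `l₀` be given.
Claim: `∑ (over t with rt t = rt l₀), z t • C t = 0`. Take a place `(i, k)`. If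
`P' a i - P' a k = rt l₀ a` for all `a`, then `C l i k = 0` for all `l` with `rt l ≠ rt l₀` (a nonzero
entry would give `rt l = rt l₀`), so the entry `(i, k)` of the partial sum is the entry of the full
sum, `0`. Otherwise `C t i k = 0` for all `t` with `rt t = rt l₀`. By the last hypothesis for `l₀`,
`z l₀ = 0`.
(3) `P'` injective: if `P' a = 0` then for each `l`, at a nonzero entry of `C l` (`C l ≠ 0` by linear
independence, `LinearIndependent.ne_zero`), `rt l a = P' a i - P' a k = 0`; so `a = 0` by `sep`.
(3') `P'` maps `X.b` onto `Y.b`, because the dimensions are equal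
(`LinearMap.injective_iff_surjective_of_finrank_eq_finrank` for the corestriction
`X.b →ₗ Y.b`).
(4) Brackets: both sides are bilinear in `x, y`, so it is enough to take `x = e l`, `y = e l'`
(`Module.Basis.ext` for the bilinear maps, or induction on the span). `rt l ≠ rt l'`:
`T (br e l l') = br C l l'` (`T` is linear; `BRN` inside the subtype) `= C l * C l' - C l' * C l`.
`rt l = rt l'`: the left side is `T 0 = 0` by `CSR`
(`e l`, `e l'` are in the span of the `e t` with `rt t = rt l`). Right side: let `g : Y.b →ₗ X.b` be the inverse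
of the bijection `P'` and `ρ = rt l ∘ g`. For `c = P' a ∈ Y.b` the entry `(i, k)` of
`diagonal c * C l - C l * diagonal c` is `(P' a i - P' a k) * C l i k = rt l a * C l i k`
(`C l i k = 0` or `≠ 0`), so this matrix is `ρ c • C l`, and the same for `C l'` (`rt l = rt l'`). By
`AbRt Y` `C l * C l' - C l' * C l = 0`.
(5) `T (diag a * x - x * diag a)`: linear in `x`; for `x = e l` it is `T (rt l a • e l) = rt l a • C l`
(`wt`), and `(diagonal (P' a) * C l - C l * diagonal (P' a)) i k = (P' a i - P' a k) * C l i k`, which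
is `rt l a * C l i k` in both cases `C l i k = 0` and `≠ 0`. -/
def AlnStmt : Prop :=
  ∀ (X Y : Dat) (hX : MS X) (P : X.b →ₗ[ℝ] (Fin Y.m → ℝ)), (∀ a, P a ∈ Y.b) → AbRt Y →
    Module.finrank ℝ X.b = Module.finrank ℝ Y.b →
    ∀ κ : hX.J → ℝ, (∀ j, 0 < κ j) → ∀ C : hX.ι → Matrix (Fin Y.m) (Fin Y.m) ℝ,
      GrN X Y hX ℝ P κ C →
      (∀ l₀ : hX.ι, LinearIndependent ℝ fun t : {t : hX.ι // hX.rt t = hX.rt l₀} => C t.1) →
      AlgEmb X Y

/-- **Row ALM** (summary of part C; version of `ALG`). Uses: `GRN`, `TRN`, `CLN`, `ALN`. Easy.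

Proof. `GRN` gives `κ > 0` and a graded family `C'` over `S.FF`; `TRN` a graded family `C''` over
`ℝ`; `CLN` (third and fourth clause of `GrN`): the root spaces are injective; `ALN`. -/
def AlmStmt : Prop :=
  ∀ (X Y : Dat) (hX : MS X) (S : Scale) (P : X.b →ₗ[ℝ] (Fin Y.m → ℝ)), (∀ a, P a ∈ Y.b) →
    AbRt Y → Module.finrank ℝ X.b = Module.finrank ℝ Y.b →
    ∀ C : hX.ι → Matrix (Fin Y.m) (Fin Y.m) S.FF, GoodM X Y hX S.FF P C →
      TopInj X Y hX S.FF P C → AlgEmb X Y

end Pool.Agent.QSN
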