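import Pool.Agent.QSN.StmtsA
import Pool.Agent.Helper10_QSX.DDE

/-!
# Squad QSN, part E (helper19): examples

`SL_n (𝔻)` (`n ≥ 3`), `SO (p, p + d)` (`p ≥ 2`), the groups of isometries of Hermitian and skew
Hermitian forms of maximal index over `𝔻` (`SU (p, p)`, `Sp (p, p)`, `SO* (4 p)`), products.
Rows `MSD ABD DSM MSO ABO OEM MSU ABU UEM PRM PRA EXA`; one statement per row, complete proofs in the
docstrings.  For `datD`, `blk`, `cst`, `dia`, `UD` see `Pool/Agent/Helper10_QSX/DDF.lean`, for `rd`,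
`alg_pad`, `alg_rank` see `Pool/Agent/Helper10_QSX/DDE.lean` (namespace `Pool.Agent.QSX.H10`), for the
split groups `Pool/Agent/Helper10_QSX/RSL.lean` (SL) and `Pool/Agent/Helper49_QSX/SOM.lean` (SO).
-/

set_option autoImplicit false

namespace Pool.Agent.QSN

open Matrix Finset Pool.Agent.QSX

/-! ### The data -/

section O

variable {p d : ℕ}

/-- the middle indices of `Fin (2 p + d)` -/
def Md (p d : ℕ) (i : Fin (2 * p + d)) : Prop := p ≤ (i : ℕ) ∧ (i : ℕ) < p + d

instance (i : Fin (2 * p + d)) : Decidable (Md p d i) := by unfold Md; infer_instance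

/-- the involution: `rev` on the outer indices, the identity on the middle indices -/
def sg (p d : ℕ) (i : Fin (2 * p + d)) : Fin (2 * p + d) := if Md p d i then i else Fin.rev i

theorem sg_mid {i : Fin (2 * p + d)} (h : Md p d i) : sg p d i = i := if_pos h

theorem sg_out {i : Fin (2 * p + d)} (h : ¬ Md p d i) : sg p d i = Fin.rev i := if_neg h

theorem md_rev {i : Fin (2 * p + d)} : Md p d (Fin.rev i) ↔ Md p d i := by
  unfold Md
  rw [Fin.val_rev]
  have := i.2
  omega

theorem sg_sg (i : Fin (2 * p + d)) : sg p d (sg p d i) = i := by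
  by_cases h : Md p d i
  · rw [sg_mid h, sg_mid h]
  · rw [sg_out h, sg_out (fun h' => h (md_rev.1 h')), Fin.rev_rev]

/-- The datum of `SO (p, p + d)`: the form is antidiagonal on the outer `2 p` coordinates and the
identity on the `d` coordinates in the middle. -/
def datO (p d : ℕ) : Dat where
  m := 2 * p + d
  b :=
    { carrier := {c | ∀ i, c (sg p d i) = - c i}
      add_mem' := by
        intro c c' hc hc' i
        rw [Pi.add_apply, Pi.add_apply, hc i, hc' i, neg_add]
      zero_mem' := fun _ => neg_zero.symm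
      smul_mem' := by
        intro r c hc i
        rw [Pi.smul_apply, Pi.smul_apply, hc i, smul_neg] }
  n :=
    { carrier := {x | SU x ∧ (∀ i j, x (sg p d j) (sg p d i) = - x i j) ∧
        ∀ i j, Md p d i → Md p d j → x i j = 0}
      add_mem' := by
        intro x y hx hy
        refine ⟨hx.1.add hy.1, fun i j => ?_, fun i j hi hj => ?_⟩
        · rw [Matrix.add_apply, Matrix.add_apply, hx.2.1 i j, hy.2.1 i j]; ring
        · rw [Matrix.add_apply, hx.2.2 i j hi hj, hy.2.2 i j hi hj, add_zero]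
      zero_mem' := ⟨SU.zero, fun i j => by simp, fun _ _ _ _ => rfl⟩
      smul_mem' := by
        intro r x hx
        refine ⟨hx.1.smul r, fun i j => ?_, fun i j hi hj => ?_⟩
        · rw [Matrix.smul_apply, Matrix.smul_apply, hx.2.1 i j, smul_eq_mul, smul_eq_mul]; ring
        · rw [Matrix.smul_apply, hx.2.2 i j hi hj, smul_zero] }
  su := fun _ hx => hx.1
  lie := by
    intro x hx y hy
    have key : ∀ x y : Matrix (Fin (2 * p + d)) (Fin (2 * p + d)) ℝ,
        (∀ i j, x (sg p d j) (sg p d i) = - x i j) →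
        (∀ i j, y (sg p d j) (sg p d i) = - y i j) → ∀ i j,
        (x * y) (sg p d j) (sg p d i) = (y * x) i j := by
      intro x y hx hy i j
      rw [Matrix.mul_apply, Matrix.mul_apply,
        ← Equiv.sum_comp (Function.Involutive.toPerm (sg p d) sg_sg)]
      refine Finset.sum_congr rfl fun k _ => ?_
      rw [Function.Involutive.coe_toPerm, hx k j, hy i k]
      ring
    have key2 : ∀ x y : Matrix (Fin (2 * p + d)) (Fin (2 * p + d)) ℝ, SU x → SU y →
        (∀ i j, Md p d i → Md p d j → x i j = 0) → ∀ i j, Md p d i → Md p d j →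
        (x * y) i j = 0 := by
      intro x y hx hy hm i j hi hj
      rw [Matrix.mul_apply]
      refine Finset.sum_eq_zero fun k _ => ?_
      by_cases hk : Md p d k
      · rw [hm i k hi hk, zero_mul]
      · rcases le_or_gt k i with h1 | h1
        · rw [hx i k h1, zero_mul]
        · rw [hy k j (by unfold Md at hi hj hk; rw [Fin.lt_def] at h1; rw [Fin.le_def]; omega),
            mul_zero]
    refine ⟨(hx.1.mul hy.1).sub (hy.1.mul hx.1), fun i j => ?_, fun i j hi hj => ?_⟩
    · rw [Matrix.sub_apply, Matrix.sub_apply, key x y hx.2.1 hy.2.1, key y x hy.2.1 hx.2.1]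
      ring
    · rw [Matrix.sub_apply, key2 x y hx.1 hy.1 hx.2.2 i j hi hj,
        key2 y x hy.1 hx.1 hy.2.2 i j hi hj, sub_zero]
  stab := by
    intro c hc x hx
    refine ⟨fun i j h => ?_, fun i j => ?_, fun i j hi hj => ?_⟩
    · rw [Matrix.sub_apply, Matrix.diagonal_mul, Matrix.mul_diagonal, hx.1 i j h, mul_zero,
        zero_mul, sub_zero]
    · rw [Matrix.sub_apply, Matrix.sub_apply, Matrix.diagonal_mul, Matrix.mul_diagonal,
        Matrix.diagonal_mul, Matrix.mul_diagonal, hx.2.1 i j, hc i, hc j]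
      ring
    · rw [Matrix.sub_apply, Matrix.diagonal_mul, Matrix.mul_diagonal, hx.2.2 i j hi hj, mul_zero,
        zero_mul, sub_zero]

end O

section U

variable {p k : ℕ}

/-- the signs of the form: `1` in the first half, `ε` in the second half -/
def sU (p : ℕ) (ε : ℝ) (i : Fin (2 * p)) : ℝ := if (i : ℕ) < p then 1 else ε

theorem sU_sq (ε : ℝ) (hε : ε * ε = 1) (i : Fin (2 * p)) : sU p ε i * sU p ε i = 1 := by
  unfold sU; split_ifs
  · norm_num
  · exact hε

/-- the strictly upper triangular matrices of blocks `x i j ∈ 𝔻` with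
`x (rev j) (rev i) = - s i * s j • (x i j)ᵀ` -/
def nU (p : ℕ) {k : ℕ} (𝔻 : Subalgebra ℝ (Matrix (Fin k) (Fin k) ℝ)) (ε : ℝ) :
    Submodule ℝ (Matrix (Fin (2 * p)) (Fin (2 * p)) (Matrix (Fin k) (Fin k) ℝ)) where
  carrier := {x | x ∈ UD (2 * p) 𝔻 ∧
    ∀ i j, x (Fin.rev j) (Fin.rev i) = (-(sU p ε i * sU p ε j)) • (x i j)ᵀ}
  add_mem' := by
    intro x y hx hy
    refine ⟨(UD (2 * p) 𝔻).add_mem hx.1 hy.1, fun i j => ?_⟩
    rw [Matrix.add_apply, Matrix.add_apply, hx.2 i j, hy.2 i j, Matrix.transpose_add, smul_add]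
  zero_mem' := ⟨(UD (2 * p) 𝔻).zero_mem, fun i j => by simp⟩
  smul_mem' := by
    intro r x hx
    refine ⟨(UD (2 * p) 𝔻).smul_mem r hx.1, fun i j => ?_⟩
    rw [Matrix.smul_apply, Matrix.smul_apply, hx.2 i j, Matrix.transpose_smul, smul_comm]

/-- The datum of the isometry group of a form of maximal index over `𝔻` (the involution of `𝔻` is the
transpose): `ε = 1` Hermitian, `ε = -1` skew Hermitian.  For `𝔻 = ℝ, ℂ, ℍ`: `SO (p, p)`, `SU (p, p)`,
`Sp (p, p)` (`ε = 1`), `Sp_(2 p) (ℝ)`, `SU (p, p)`, `SO* (4 p)` (`ε = -1`). -/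
noncomputable def datU (p : ℕ) {k : ℕ} (𝔻 : Subalgebra ℝ (Matrix (Fin k) (Fin k) ℝ)) (ε : ℝ)
    (hε : ε * ε = 1) : Dat where
  m := 2 * p * k
  b :=
    { carrier := {c | ∃ c' : Fin (2 * p) → ℝ, (∀ i, c' (Fin.rev i) = - c' i) ∧
        c = cst k (2 * p) c'}
      add_mem' := by
        rintro _ _ ⟨c, hc, rfl⟩ ⟨c', hc', rfl⟩
        refine ⟨c + c', fun i => ?_, rfl⟩
        rw [Pi.add_apply, Pi.add_apply, hc i, hc' i, neg_add]
      zero_mem' := ⟨0, fun i => by simp, rfl⟩
      smul_mem' := by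
        rintro r _ ⟨c, hc, rfl⟩
        refine ⟨r • c, fun i => ?_, rfl⟩
        rw [Pi.smul_apply, Pi.smul_apply, hc i, smul_neg] }
  n :=
    { carrier := {z | ∃ x ∈ nU p 𝔻 ε, z = blk k (2 * p) x}
      add_mem' := by
        rintro _ _ ⟨x, hx, rfl⟩ ⟨y, hy, rfl⟩
        exact ⟨_, (nU p 𝔻 ε).add_mem hx hy, (map_add _ _ _).symm⟩
      zero_mem' := ⟨0, (nU p 𝔻 ε).zero_mem, (map_zero _).symm⟩
      smul_mem' := by
        rintro r _ ⟨x, hx, rfl⟩
        exact ⟨_, (nU p 𝔻 ε).smul_mem r hx, (map_smul _ _ _).symm⟩ }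
  su := by
    rintro _ ⟨x, hx, rfl⟩ a a' h
    obtain ⟨⟨i, j⟩, rfl⟩ := finProdFinEquiv.surjective a
    obtain ⟨⟨i', j'⟩, rfl⟩ := finProdFinEquiv.surjective a'
    rw [blk_apply, hx.1.2 i i' (finProd_le h), Matrix.zero_apply]
  lie := by
    rintro _ ⟨x, hx, rfl⟩ _ ⟨y, hy, rfl⟩
    have key : ∀ x ∈ nU p 𝔻 ε, ∀ y ∈ nU p 𝔻 ε, ∀ i j,
        (x * y) (Fin.rev j) (Fin.rev i) = (sU p ε i * sU p ε j) • ((y * x) i j)ᵀ := by
      intro x hx y hy i j
      rw [Matrix.mul_apply, Matrix.mul_apply, Matrix.transpose_sum, Finset.smul_sum,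
        ← Equiv.sum_comp Fin.revPerm]
      refine Finset.sum_congr rfl fun l _ => ?_
      rw [Fin.revPerm_apply, hx.2 l j, hy.2 i l, Matrix.smul_mul, Matrix.mul_smul, smul_smul,
        Matrix.transpose_mul]
      congr 1
      have := sU_sq ε hε l
      linear_combination (sU p ε i * sU p ε j) * this
    refine ⟨x * y - y * x, ⟨(UD (2 * p) 𝔻).sub_mem (UD_mul hx.1 hy.1) (UD_mul hy.1 hx.1),
      fun i j => ?_⟩, by rw [map_sub, map_mul, map_mul]⟩
    rw [Matrix.sub_apply, Matrix.sub_apply, key x hx y hy, key y hy x hx, Matrix.transpose_sub,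
      neg_smul, smul_sub]
    abel
  stab := by
    rintro _ ⟨c, hc, rfl⟩ _ ⟨x, hx, rfl⟩
    have e : ∀ i j, (dia k c * x - x * dia k c) i j = (c i - c j) • x i j := by
      intro i j
      rw [Matrix.sub_apply, dia, Matrix.diagonal_mul, Matrix.mul_diagonal, Matrix.smul_mul,
        Matrix.mul_smul, Matrix.one_mul, Matrix.mul_one, sub_smul]
    refine ⟨dia k c * x - x * dia k c, ⟨UD_dia c hx.1, fun i j => ?_⟩,
      by rw [map_sub, map_mul, map_mul, blk_dia]⟩
    rw [e, e, hx.2 i j, hc i, hc j, Matrix.transpose_smul, smul_smul, smul_smul]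
    congr 1
    ring

end U

/-- `𝔻` is spanned by rational matrices -/
def RatSp {k : ℕ} (𝔻 : Subalgebra ℝ (Matrix (Fin k) (Fin k) ℝ)) : Prop :=
  ∃ S : Set (Matrix (Fin k) (Fin k) ℝ), (∀ z ∈ S, ∀ i j, ∃ q : ℚ, z i j = (q : ℝ)) ∧
    Submodule.span ℝ S = Subalgebra.toSubmodule 𝔻

/-- the conditions on `𝔻` for the unitary groups: a division algebra spanned by rational matrices,
closed under the transpose, with an element `h ≠ 0`, `hᵀ = - ε h` (so the root system is of type `C`) -/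
def Herm {k : ℕ} (𝔻 : Subalgebra ℝ (Matrix (Fin k) (Fin k) ℝ)) (ε : ℝ) : Prop :=
  RatSp 𝔻 ∧ (∀ a ∈ 𝔻, aᵀ ∈ 𝔻) ∧ (∀ a ∈ 𝔻, a ≠ 0 → ∃ b ∈ 𝔻, a * b = 1) ∧
    ∃ h ∈ 𝔻, h ≠ 0 ∧ hᵀ = (-ε) • h

/-! ### `SL_n (𝔻)` -/

/-- **MSD** (medium-strong, no hypotheses; compare `Helper10_QSX/RSL.lean`).  The datum of `SL_n (𝔻)`, `n ≥ 3`.
Proof.  Choose a finite basis `B ⊆ S` of `𝔻` (`exists_linearIndependent`; finite because the space of matrices is finite dimensional).  `ι = {(i,j) : i < j} × B`, `e ((i,j),β) = blk k n (Matrix.single i j β)`, `rt ((i,j),β) c = rd c i - rd c j`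
(`rd` as in DDE; for `c = cst d` it is `d i - d j`).  `rat`: the entries of `e` are entries of `β` or `0` (`blk_apply`).  `span_e`: `x = ∑_(i<j) single i j (x i j)` and `x i j ∈ span B`.  `lin`: compare the blocks `(i,j)`, then `B` is linearly
independent.  `wt`: `(dia c * x - x * dia c) i j = (c i - c j) • x i j` (`blk_dia`, `map_mul`).  `pos`: `d i = (n-1)/2 - i` (sum `0`), the value of the root `(i,j)` is `j - i ≥ 1`.  `sep`: all `d i` are equal and their sum is `0`.
`nonprop`: if `(i,j) ≠ (i',j')` are not equal as pairs then `d i - d j = c (d i' - d j')` for all `d` of sum `0` is impossible: it holds then for all `d` (both sides do not change if a constant is added), and one evaluates at unit vectors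
(at an index of `{i,j}` which is not in `{i',j'}`, or, if `{i,j} = {i',j'}`, the pairs are equal because `i < j`, `i' < j'`); so different roots have different pairs and equal pairs the same root.
`gen`: if `rt t = p rt l + q rt l'`, `p, q ≥ 1`, `t = ((i,j),α)`, evaluate at the vector of `pos`: `j - i ≥ 2`.  Let `h = i + 1 < j`.  `1 ∈ 𝔻` is a combination of `B`, `1 = ∑ q_β β`, so
`e t = ∑_β q_β (e ((i,h),β) * e ((h,j),α) - e ((h,j),α) * e ((i,h),β))` (`single i h β * single h j α = single i j (β α)`, the other product is `0`; `h ≠ i`, and `j ≠ i`), the roots are different and their sum is `rt t`.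
`J = Unit`, `top = ((0,n-1),β₀)` for some `β₀ ∈ B` (`B` is not empty: `1 ≠ 0`, `0 < k`).  `comp_rt` trivial.  `climb`: an element of the span of the root space `(i,j)` is `blk (single i j a)`, `a ∈ 𝔻`.  If `0 < i`: the bracket with
`e ((0,i),β)` is `- blk (single 0 j (β a))`; it is `0` for all `β ∈ B`, so `1 * a = 0`.  If `i = 0`, `j < n - 1`: the bracket with `e ((j,n-1),β)` is `blk (single 0 (n-1) (a β))`; so `a * 1 = 0`.  (The roots of these elements are not `rt l`.)
`rank1`: `n ≥ 3`, so there is an index with another root and the hypothesis is false.  `scal`: `S = κ • id`. -/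
def MsdStmt : Prop :=
  ∀ (k n : ℕ) (𝔻 : Subalgebra ℝ (Matrix (Fin k) (Fin k) ℝ)), 0 < k → 3 ≤ n → RatSp 𝔻 →
    Nonempty (MRS (datD n 𝔻))

/-- **ABD** (easy-medium, no hypotheses).  The root spaces of `SL_n (𝔻)` are abelian.
Proof.  Let `z = blk x`, `w = blk y` have weight `ρ`.  If `x i h ≠ 0` (block) then `d i - d h = ρ (cst d)` for all `d` of sum `0` (compare the blocks of `blk ((d i - d j) • x i j) = ρ(..) blk x`).  Claim: `x * y = 0` and `y * x = 0`.  Otherwise there
are `i, h, j` with `x i h ≠ 0`, `y h j ≠ 0`, so `i < h < j` and `d i - d h = d h - d j` for all `d` of sum `0`, so for all `d`; take `d = Pi.single h 1`: `-1 = 1`. -/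
def AbdStmt : Prop :=
  ∀ (k n : ℕ) (𝔻 : Subalgebra ℝ (Matrix (Fin k) (Fin k) ℝ)), 0 < k → AbRt (datD n 𝔻)

/-- **DSM** (easy-medium, no hypotheses).  Ranks and dimensions for `SL_n (𝔻)`.
Proof.  `b`: `(datD n 𝔻).b = bD n k` does not depend on `𝔻` (`rfl`).  `n`: the subspace `nD n 𝔻` is contained in `nD n 𝔻'` (same ambient space), and if `a ∈ 𝔻'`, `a ∉ 𝔻`, then `blk (single 0 1 a)` is in the second and not in the first
(`blk` is injective); `Submodule.finrank_lt_finrank_of_lt`. -/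
def DsmStmt : Prop :=
  ∀ (k n : ℕ) (𝔻 𝔻' : Subalgebra ℝ (Matrix (Fin k) (Fin k) ℝ)), 0 < k → 2 ≤ n →
    Module.finrank ℝ (datD n 𝔻).b = Module.finrank ℝ (datD n 𝔻').b ∧
    (𝔻 < 𝔻' → Module.finrank ℝ (datD n 𝔻).n < Module.finrank ℝ (datD n 𝔻').n)

/-! ### `SO (p, p + d)` -/

/-- **MSO** (strong, no hypotheses; compare `Helper49_QSX/SOM.lean`).  The datum of `SO (p, p + d)`, `p ≥ 2`, `d ≥ 1`.  Let `m = 2 p + d`, `σ = sg p d`.
Proof.  `ι = {(i,j) : i < p, i < j, i + j < m - 1}`, `e (i,j) = E_(i,j) - E_(σ j, σ i)`, `rt (i,j) c = c_i - c_j`.  TYPES: (A) `j < p`: root `c_i - c_j`; (B) `j` in the middle (all `d` middle `j` satisfy `i + j < m - 1`), root `c_i` (`c_j = 0` because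
`c_j = c_(σ j) = - c_j`); (C) `j = rev h` with `i < h < p`: root `c_i + c_h`.  `e (i,j) ∈ n`: `(σ j, σ i)` is a position with `σ j < σ i`, not in `ι`, its mirror image is `(i,j)`.
`span_e`, `lin`: the positions `(i,j)`, `i < j`, which are not in (middle, middle) are: the positions in `ι`, their mirror images (`(A) ↦ (rev j, rev i)`, `(B) ↦ (j, rev i)`, `(C) ↦ (h, rev i)`), and `(i, rev i)`, where `x = - x`, so the entry is
`0`; so `x = ∑_ι x_ij e (i,j)`.  `pos`: `c_i = p - i`, `c_(rev i) = -(p - i)` (`i < p`), `0` in the middle: the values of the roots are `j - i`, `p - i`, `(p - i) + (p - h)`, all `≥ 1` (and integers).  `sep`: type (B) exists (`d ≥ 1`): all `c_i = 0`.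
`nonprop`: the roots in the coordinates `c_i`, `i < p` (free), are `ε_i - ε_j`, `ε_i`, `ε_i + ε_h` (`i < j, h`): if two of them are proportional they are equal (evaluate at the vectors `b_i = Pi.single i 1 - Pi.single (rev i) 1 ∈ b`: the root has value
`1` at `b_i` for its first index `i`, and all values at `b_h`, `h < i`, are `0`; so the first indices agree and the scalar is `1`).
`gen`: let `rt t = p' rt l + q' rt l'`, `p', q' ≥ 1`; the value at the vector of `pos` is `≥ 2`.  (A) `j - i ≥ 2`, `h = i + 1`: `e (i,j) = [e (i,h), e (h,j)]`.  (B) `p - i ≥ 2`, `h = i + 1 < p`: `e (i,j) = [e (i,h), e (h,j)]`.  (C) `i < h < p`,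
`r` the first middle index (`r = p`): `e (i, rev h) = ± [e (i,r), e (h,r)]` (`E_(i,r) * (- E_(r, rev h))`, and `E_(h,r) * (- E_(r, rev i))` subtracted: this gives `- E_(i, rev h) + E_(h, rev i) = - e (i, rev h)`).  In each case the roots are
different and their sum is `rt t`.
`J = Unit`, `top = (0, m - 2)`, root `c_0 + c_1` (`1 < p`).  `climb`: `x` is a combination of the `e l'` with the same root (only in type (B) there is more than one).  (1) `i > 0`: for `k = (0,i)` the entry `(0,j)` of `e k * x - x * e k` is `x_ij`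
(row `0` of `x` is `0`), for every `j`; so all coefficients are `0`.  (2) `i = 0`, (A), `x = a e (0,j)`: `k = (j, r)`, `r = p`: entry `(0,r)` of `x * e k - e k * x` is `a`.  (3) `i = 0`, (B), `x = ∑_r a_r e (0,r)`: `k = (1, r)`: the entry
`(0, rev 1)` of `x * e k - e k * x` is `- a_r` (row `0` of `e k` is `0`); so all `a_r = 0`.  (4) `i = 0`, (C), `h ≥ 2`, `x = a e (0, rev h)`: `k = (1,h)`: the entry `(0, rev 1)` of `x * e k` is `- a` (`e k = E_(1,h) - E_(rev h, rev 1)`), row `0` of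
`e k` is `0`.  `rank1`: there are different roots (`c_0 - c_1`, `c_0`), so the hypothesis is false.  `scal`: `S = κ • id`. -/
def MsoStmt : Prop := ∀ p d : ℕ, 2 ≤ p → 1 ≤ d → Nonempty (MRS (datO p d))

/-- **ABO** (medium, no hypotheses).  The root spaces of `SO (p, p + d)` are abelian.
Proof.  Let `x`, `y` have weight `ρ`: `x_ij ≠ 0` implies `c_i - c_j = ρ(c)` for all `c ∈ b` (the entry `(i,j)` of `diag c x - x diag c` is `(c_i - c_j) x_ij`), the same for `y`.  Claim: `(x y)_ij = (y x)_ij` for all `i, j`.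
Let `x_ih y_hj ≠ 0`; then `i < h < j` and (*) `2 c_h = c_i + c_j` for all `c ∈ b`.  If `h` is not in the middle let `c = ± (Pi.single h 1 - Pi.single (rev h) 1) ∈ b`, with `c_h = ± 1`: then `c_i + c_j = ± 2` forces `c_i = c_j = c_h`, so `i = h`: not
possible.  So `h` is in the middle, `c_h = 0`, `c_j = - c_i` for all `c ∈ b`; `i < h` is not in the middle (entries (middle, middle) of `x` are `0`), so `j = rev i` (take `c = Pi.single i 1 - Pi.single (rev i) 1`), `i < p`.  So `(x y)_ij = 0` and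
`(y x)_ij = 0` unless `j = rev i`, `i < p`, and `(x y)_(i, rev i) = ∑_(h middle) x_ih y_(h, rev i) = - ∑_(h middle) x_ih y_ih` (`y (σ i') (σ j') = ..`: `y_(h, rev i) = y_(σ h, σ i) = - y_(i,h)`), which is symmetric in `x`, `y`. -/
def AboStmt : Prop := ∀ p d : ℕ, AbRt (datO p d)

/-- **OEM** (medium, no hypotheses).  `SO (p, p + d)` in `SO (p, p + d + 1)`; ranks and dimensions.
Proof.  Let `f : Fin (2 p + d) → Fin (2 p + d + 1)` be the order preserving injection which omits the index `p + d` (the last middle index of the target): `f i = i` for `i < p + d`, `i + 1` otherwise (`Fin.succAbove ⟨p + d, _⟩`).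
`Md (f i) ↔ Md i` and `σ (f i) = f (σ i)` (`rev` on outer indices: `2 p + d - (i + 1)`).  `T x (f i) (f j) = x i j`, all other entries `0`; `P c (f i) = c i`, `P c (p + d) = 0`.  `T` is multiplicative (`∑` over the image of `f`), `T x ∈ n`, `P c ∈ b`,
`T` and `P` injective, `diag (P c) * T x = T (diag c * x)`: so `AlgEmb`.  Ranks: the restriction to the first `p` coordinates is a linear equivalence `b ≃ (Fin p → ℝ)` (`c_(rev i) = - c_i`, middle `0`), so both ranks are `p`.  Dimensions: `T` is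
injective on `n`, and not surjective if `1 ≤ p`: the matrix `E_(0, p + d) - E_(p + d, rev 0)` is in the target and not in the image (its entry `(0, p + d)` is `1`); so `finrank < finrank` (`Submodule.finrank_lt` of the range in the target, or
`LinearMap.injective_iff_surjective_of_finrank_eq_finrank` by contradiction). -/
def OemStmt : Prop :=
  ∀ p d : ℕ, 1 ≤ p → AlgEmb (datO p d) (datO p (d + 1)) ∧ Module.finrank ℝ (datO p d).b = p ∧
    Module.finrank ℝ (datO p d).n < Module.finrank ℝ (datO p (d + 1)).n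

/-! ### Unitary groups -/

/-- **MSU** (strong, no hypotheses; compare MSD and `Helper27_QSX/SPN.lean`).  The datum of the unitary groups, `p ≥ 2`.
Proof.  Write `R = rev`, `H = {h ∈ 𝔻 : hᵀ = - ε h}`; `s_i = sU p ε i`, `s_i s_(R i) = ε`.  For `i < j`, `j ≠ R i`, and `a ∈ 𝔻` let `E (i,j) a = single i j a - (s_i s_j) • single (R j) (R i) aᵀ`, and for `i < p`, `h ∈ H`, `E (i, R i) h = single i (R i) h`;
these are in `nU` (`s_i s_(R i) = ε`, so the condition at `(i, R i)` is `h = - ε hᵀ`).  Choose a basis `B ⊆ S` of `𝔻` and a rational basis `B'` of `H`: `H` is spanned by the rational matrices `z - ε zᵀ`, `z ∈ S` (`h = (h - ε hᵀ)/2` for `h ∈ H`).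
`ι = {(i,j,β) : i < j, i + j < 2 p - 1, β ∈ B} ∪ {(i, R i, h) : i < p, h ∈ B'}` (a sum type), `e = blk (E ..)`, `rt c = c_i - c_j`: roots (A) `c_i - c_j`, `i < j < p`, (C) `c_i + c_h`, `j = R h`, `i < h < p`, (L) `2 c_i`.
Basis: every position `(i,j)`, `i < j`, or its mirror image `(R j, R i)` satisfies `i + j ≤ 2 p - 1`, and `x = ∑ E (i,j) (x i j)`.  `pos`: `c_i = p - i - 1/2`: values `j - i`, `2 p - i - h - 1`, `2 p - 2 i - 1`, integers `≥ 1`.
`sep`: (L).  `nonprop`: in the free coordinates `c_i`, `i < p`, the roots are `ε_i - ε_j`, `ε_i + ε_h`, `2 ε_i`; proportional roots have the same first index, and then they are equal (evaluate at `b_i = Pi.single i 1 - Pi.single (R i) 1`).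
`gen`: the value of `rt t` at the vector of `pos` is `≥ 2`.  (A) `j - i ≥ 2`, `h = i + 1`: `E (i,j) a = [E (i,h) 1, E (h,j) a]` and `1 = ∑ q_β β`.  (C) `[E (i,h) a, E (h, R h) g] = E (i, R h) (a g)`, `g ∈ H` invertible, `g ≠ 0`: every element of `𝔻`
is some `a g` (`a = α g⁻¹`; `g⁻¹ ∈ 𝔻`: `g b = 1` implies `b g = 1`), write `a` and `g` in the bases.  (L) `i < p - 1` (value `≥ 2`), `h = i + 1 < p`: `[E (i,h) 1, E (h, R i) a] = E (i, R i) (a - ε aᵀ)` up to sign (compute
the entry `(i, R i)`: `1 * a` from the first product and `- s_h s_(R i) .. aᵀ` from the second one), and `a = g/2` gives `± g` for `g ∈ H`.  The roots are different with sum `rt t`.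
`J = Unit`, `top = (0, R 0, h₀)`, root `2 c_0`.  `climb`: `x = E (i,j) a`.  (1) `i > 0`: the bracket with `E (0,i) β` has the block `± β a` at `(0,j)`; all `β ∈ B`: `a = 0`.  (2) `i = 0`, `j < p`: bracket with `E (j, R 0) β`, `β ∈ 𝔻` (root `c_j + c_0`): the
block at `(0, R 0)` is `a β - ε (a β)ᵀ` up to the sign of the second term, which must be such that the result is in `H`; if it vanishes for all `β ∈ 𝔻` and `a ≠ 0`, take `β = a⁻¹ g/2` with `g ∈ H`, `g ≠ 0`: it is `g ≠ 0`, contradiction.  (3) `i = 0`,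
`j = R h`, `0 < h < p`: the same with `E (h', R 0)`, `h' = j`, in the form `E (0, h) β` (root `c_0 - c_h`): the bracket is in the root space `2 c_0`, its block at `(0, R 0)` is, up to sign, `a βᵀ - ε (a βᵀ)ᵀ`.  `rank1`: the roots `c_0 - c_1`, `2 c_0` are
different.  `scal`: `S = κ • id`. -/
def MsuStmt : Prop :=
  ∀ (k p : ℕ) (𝔻 : Subalgebra ℝ (Matrix (Fin k) (Fin k) ℝ)) (ε : ℝ) (hε : ε * ε = 1), 0 < k →
    2 ≤ p → Herm 𝔻 ε → Nonempty (MRS (datU p 𝔻 ε hε))

/-- **ABU** (easy-medium, no hypotheses; compare ABD).  The root spaces of the unitary groups are abelian.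
Proof.  Let `z = blk x`, `w = blk y` have weight `ρ`.  If the block `x i h ≠ 0` then `c_i - c_h = ρ (cst c)` for all `c` with `c_(rev i) = - c_i`.  Claim `x * y = 0`, `y * x = 0`: otherwise there are `i < h < j` with `2 c_h = c_i + c_j` for all these `c`;
take `c = Pi.single h 1 - Pi.single (rev h) 1` (`rev h ≠ h`, even size): `c_i + c_j = 2` forces `c_i = 1`, so `i = h`, a contradiction. -/
def AbuStmt : Prop :=
  ∀ (k p : ℕ) (𝔻 : Subalgebra ℝ (Matrix (Fin k) (Fin k) ℝ)) (ε : ℝ) (hε : ε * ε = 1), 0 < k →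
    AbRt (datU p 𝔻 ε hε)

/-- **UEM** (easy-medium, no hypotheses; compare DSM).  `U_p (𝔻)` in `U_p (𝔻')`; ranks and dimensions.
Proof.  `b` does not depend on `𝔻` (`rfl`) and the subspace `n` for `𝔻` is contained in `n` for `𝔻' ≥ 𝔻`: the inclusions give `AlgEmb` (as `alg_refl` in `Helper10_QSX/NSD.lean`).  If `a ∈ 𝔻'`, `a ∉ 𝔻` then (`p ≥ 2`)
`blk (single 0 1 a - single (rev 1) (rev 0) aᵀ)` is in the second and not in the first (`aᵀ ∈ 𝔻'` is a hypothesis; `sU 0 = sU 1 = 1`); `Submodule.finrank_lt_finrank_of_lt`. -/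
def UemStmt : Prop :=
  ∀ (k p : ℕ) (𝔻 𝔻' : Subalgebra ℝ (Matrix (Fin k) (Fin k) ℝ)) (ε : ℝ) (hε : ε * ε = 1), 0 < k →
    2 ≤ p → (∀ a ∈ 𝔻', aᵀ ∈ 𝔻') →
    (𝔻 ≤ 𝔻' → AlgEmb (datU p 𝔻 ε hε) (datU p 𝔻' ε hε)) ∧
    Module.finrank ℝ (datU p 𝔻 ε hε).b = Module.finrank ℝ (datU p 𝔻' ε hε).b ∧
    (𝔻 < 𝔻' → Module.finrank ℝ (datU p 𝔻 ε hε).n < Module.finrank ℝ (datU p 𝔻' ε hε).n)

/-! ### Products -/

/-- **PRM** (medium-strong, uses EBD of QSX; version of PRS, copy of `Helper24_QSX/PRS.lean`).  Products of data of type `MS`.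
Proof.  `ι = ι₁ ⊕ ι₂`, `e (inl l) = bd (e l) 0`, `e (inr l) = bd 0 (e l)`, roots composed with the projections of `b = b₁ × b₂` (`Fin.append`), `J = J₁ ⊕ J₂`, `L (inl l) (inl l') = (L l l').map ..`, `L (inl l) (inr l') = []` (the elements commute,
EBD).  The root of an `inl` is `0` on `b₂` and not `0` on `b₁`, so it is different from (and not proportional to) the root of an `inr`.  All fields are those of `PRS`; new: `gen` (map the list by `inl`), `comp_rt`, `climb` (a combination of the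
`e (inl l')` is `bd x 0`; the brackets with the `e (inl k)` are those of `x`), `rank1` (indices with the same component are on the same side). -/
def PrmStmt : Prop :=
  ∀ X₁ X₂ : Dat, Nonempty (MS X₁) → Nonempty (MS X₂) → Nonempty (MS (X₁.prod X₂))

/-- **PRA** (easy-medium, no hypotheses).  Products of targets.
Proof.  Elements of `(Y₁.prod Y₂).n` are `bd x₁ x₂`, `x_i ∈ n_i`, elements of `b` are `Fin.append c₁ c₂`.  Let `bd x₁ x₂`, `bd y₁ y₂` have weight `ρ`; with `c = Fin.append c₁ 0`: `x₁`, `y₁` have weight `ρ₁ = ρ ∘ (c₁ ↦ Fin.append c₁ 0)` (`bd_diagonal`, `bd_mul`,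
`bd_sub`, `bd_smul`, `bd_inj`), so they commute by `AbRt Y₁`; the same for `x₂`, `y₂`; so `bd x₁ x₂ * bd y₁ y₂ - bd y₁ y₂ * bd x₁ x₂ = bd 0 0 = 0`. -/
def PraStmt : Prop := ∀ Y₁ Y₂ : Dat, AbRt Y₁ → AbRt Y₂ → AbRt (Y₁.prod Y₂)

/-! ### The theorem for the examples -/

/-- a quasi-isometric embedding of `X` in `Y × E` exists -/
def QE (X Y : Dat) : Prop :=
  ∃ (E : Type) (_ : NormedAddCommGroup E) (_ : InnerProductSpace ℝ E) (f : X.Pt → Y.Pt × E),
    QIE X.dist (pdist Y E) f

/-- The main theorem of the squad (equal rank; the final statement is assembled elsewhere). -/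
def FnmStmt : Prop :=
  ∀ X Y : Dat, Nonempty (MS X) → AbRt Y → Module.finrank ℝ X.b = Module.finrank ℝ Y.b →
    (QE X Y ↔ AlgEmb X Y) ∧ ((∃ f : X.Pt → Y.Pt, QIE X.dist Y.dist f) ↔ AlgEmb X Y)

/-- **EXA** (easy-medium, uses FNM, CVM (StmtsA), MSD ABD DSM MSO ABO OEM MSU ABU UEM).  The examples.
Proof.  Each source is of type `MS` (CVM), each target has abelian root spaces, the ranks are equal, so (FNM) all conditions are equivalent to `AlgEmb X Y`.  An algebraic embedding gives an injective linear map `n_X → n_Y`, so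
`finrank n_X ≤ finrank n_Y` (`LinearMap.finrank_le_finrank_of_injective` for the corestriction).  (1) `𝔻 ≤ 𝔻'`: `AlgEmb` by `Pool.Agent.QSX.H10.alg_pad` with `d = 0`.  Otherwise `𝔻' < 𝔻`, and DSM contradicts the inequality of the dimensions.
(2) `d ≤ d'`: compose the embeddings of OEM (`d' - d` times; `AcmStmt` of QSX is not needed if one proves the composition directly: `T' ⟨T x, _⟩`, `P' ⟨P a, _⟩`; or use the theorem `Pool.Agent.QSX.H27.acm` in `Helper27_QSX/ACM.lean`).  If
`d' < d` the dimensions (OEM, `d - d'` times) give a contradiction.  (3) as (1), with UEM.  `fun x => f x` for the second equivalence is part of FNM. -/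
def ExaStmt : Prop :=
  (∀ (k n : ℕ) (𝔻 𝔻' : Subalgebra ℝ (Matrix (Fin k) (Fin k) ℝ)), 0 < k → 3 ≤ n → RatSp 𝔻 →
    (𝔻 ≤ 𝔻' ∨ 𝔻' ≤ 𝔻) → (QE (datD n 𝔻) (datD n 𝔻') ↔ 𝔻 ≤ 𝔻')) ∧
  (∀ p d d' : ℕ, 2 ≤ p → 1 ≤ d → (QE (datO p d) (datO p d') ↔ d ≤ d')) ∧
  (∀ (k p : ℕ) (𝔻 𝔻' : Subalgebra ℝ (Matrix (Fin k) (Fin k) ℝ)) (ε : ℝ) (hε : ε * ε = 1), 0 < k →
    2 ≤ p → Herm 𝔻 ε → (∀ a ∈ 𝔻', aᵀ ∈ 𝔻') → (𝔻 ≤ 𝔻' ∨ 𝔻' ≤ 𝔻) →
    (QE (datU p 𝔻 ε hε) (datU p 𝔻' ε hε) ↔ 𝔻 ≤ 𝔻'))

end Pool.Agent.QSN
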