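import Pool.Agent.QSN.StmtsB2
import Pool.Agent.QSN.StmtsC
import Pool.Agent.QSN.StmtsE

/-!
# Squad QSN, part D (helper18): weak embeddings; `SL_n (D) → SL_m (D')` over `ℝ`, `ℂ`, `ℍ`

One statement per row; every docstring contains a complete proof.  A row is proved as a theorem with
the statements named after the word uses as hypotheses, in this order.  `datD`, `blk`, `UD`, `nD`,
`bD`, `cst`, `dia` are defined in `Pool/Agent/Helper10_QSX/DDF.lean` (namespace `Pool.Agent.QSX`),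
further lemmas (`rd`, `cstL`, `rd_cst`, `alg_pad`) in `Pool/Agent/Helper10_QSX/DDE.lean`.
-/

set_option autoImplicit false

namespace Pool.Agent.QSN

open Matrix Finset Pool.Agent.QSX

/-! ### Weak embeddings -/

/-- **Weak embeddings**: an injective linear map `n_X → n_Y` and an injective linear map `b_X → b_Y`
compatible with the actions of `b_X` and `b_Y`, such that the linear map preserves the brackets of
root vectors of different roots. -/
def WkEmb (X Y : Dat) : Prop :=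
  ∃ (T : X.n →ₗ[ℝ] Matrix (Fin Y.m) (Fin Y.m) ℝ) (P : X.b →ₗ[ℝ] (Fin Y.m → ℝ)),
    (∀ x, T x ∈ Y.n) ∧ (∀ a, P a ∈ Y.b) ∧ Function.Injective T ∧ Function.Injective P ∧
    (∀ (a : X.b) (x : X.n), T ⟨_, X.stab a a.2 x x.2⟩ =
      diagonal (P a) * T x - T x * diagonal (P a)) ∧
    (∀ ρ ρ' : X.b →ₗ[ℝ] ℝ, ρ ≠ ρ' → ∀ x y : X.n,
      (∀ c : X.b, diagonal (c : Fin X.m → ℝ) * (x : Matrix (Fin X.m) (Fin X.m) ℝ) -
        (x : Matrix (Fin X.m) (Fin X.m) ℝ) * diagonal (c : Fin X.m → ℝ) =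
          ρ c • (x : Matrix (Fin X.m) (Fin X.m) ℝ)) →
      (∀ c : X.b, diagonal (c : Fin X.m → ℝ) * (y : Matrix (Fin X.m) (Fin X.m) ℝ) -
        (y : Matrix (Fin X.m) (Fin X.m) ℝ) * diagonal (c : Fin X.m → ℝ) =
          ρ' c • (y : Matrix (Fin X.m) (Fin X.m) ℝ)) →
      T ⟨_, X.lie x x.2 y y.2⟩ = T x * T y - T y * T x)

/-- **WKE** (medium-strong, uses BRN WTX (StmtsA); compare `Helper83_QSX/ALE.lean` and row ALN).  From a graded family with injective root spaces to a weak embedding.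
Proof.  As ALN: `D` from `hX.scal` for `κ⁻¹`, `P' = P ∘ D`, `T ⟨e l, _⟩ = C l`; `C l i k ≠ 0` implies `P' a i - P' a k = rt l a`.  `T x ∈ Y.n`, `T` and `P'` injective, `T (diag a x - x diag a) = diag(P' a) T x - T x diag(P' a)`: (1), (2), (3), (5) of ALN.
Brackets: let `x` have weight `ρ`, `y` weight `ρ'`, `ρ ≠ ρ'`.  By WTX `x` is in the span of the `e t` with `rt t = ρ`, `y` in the span of the `e t` with `rt t = ρ'`.  Both sides are bilinear, so we may take `x = e l`, `y = e l'` with `rt l = ρ ≠ ρ' = rt l'`: by BRN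
`T [e l, e l'] = T (br e l l') = br C l l' = C l C l' - C l' C l` (third clause of `GrN`). -/
def WkeStmt : Prop :=
  ∀ (X Y : Dat) (hX : MS X) (P : X.b →ₗ[ℝ] (Fin Y.m → ℝ)), (∀ a, P a ∈ Y.b) →
    ∀ κ : hX.J → ℝ, (∀ j, 0 < κ j) → ∀ C : hX.ι → Matrix (Fin Y.m) (Fin Y.m) ℝ,
      GrN X Y hX ℝ P κ C →
      (∀ l₀ : hX.ι, LinearIndependent ℝ fun t : {t : hX.ι // hX.rt t = hX.rt l₀} => C t.1) →
      WkEmb X Y

/-- **WKM** (easy, uses GRN TRN CLN WKE).  Summary: GRN gives `κ > 0` and a graded family over `S.FF`, TRN one over `ℝ`, CLN: the root spaces are injective; WKE. -/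
def WkmStmt : Prop :=
  ∀ (X Y : Dat) (hX : MS X) (S : Scale) (P : X.b →ₗ[ℝ] (Fin Y.m → ℝ)), (∀ a, P a ∈ Y.b) →
    ∀ C : hX.ι → Matrix (Fin Y.m) (Fin Y.m) S.FF, GoodM X Y hX S.FF P C →
      TopInj X Y hX S.FF P C → WkEmb X Y

/-! ### The pieces of a weak embedding of `SL_n (D)` -/

/-- vectors of sum zero -/
abbrev SZ (n : ℕ) : Type := {a : Fin n → ℝ // ∑ i, a i = 0}

/-- the functional `a ↦ a i - a j` -/
def ep {n : ℕ} (i j : Fin n) : SZ n → ℝ := fun a => a.1 i - a.1 j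

/-- The pieces `t i j : D → n_Y` of a weak embedding of `SL_n (D)` in `SL_m (D')`; `w p` is the weight
of the coordinate `p`. -/
structure SLW (n m : ℕ) (D D' : Type) [Ring D] [Algebra ℝ D] [Ring D'] [Algebra ℝ D'] where
  t : Fin n → Fin n → D →ₗ[ℝ] Matrix (Fin m) (Fin m) D'
  w : Fin m → SZ n → ℝ
  sup : ∀ i j, i < j → ∀ x p q, t i j x p q ≠ 0 → w p = w q + ep i j
  br : ∀ i j l, i < j → j < l → ∀ x y, t i j x * t j l y - t j l y * t i j x = t i l (x * y)
  inj : ∀ i j, i < j → Function.Injective (t i j)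

/-- **SLX** (medium-strong, no hypotheses).  The pieces of a weak embedding.
Proof.  Let `T`, `P` be the weak embedding.  For `i < j`, `x ∈ 𝔻` let `E i j x = blk k n (single i j x) ∈ nD n 𝔻` (the matrix of blocks with the block `x` at the place `(i, j)`), and `t i j x = (blk k' m).symm (T (E i j x))`, a matrix in `UD m 𝔻'`, so its
entries are in `𝔻'` (take them in the subtype `𝔻'`); linear in `x`; `t i j = 0` if not `i < j`.  For `a` of sum zero let `w p a = P (cst k n a) (p, 0)` (`cst k n a ∈ bD n k`; `P (..) ∈ bD m k'` is constant on the blocks).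
`sup`: `diag(cst a) E i j x - E i j x diag(cst a) = (a i - a j) E i j x` (`blk_dia`), so `(a i - a j) T(E) = diag(P a) T(E) - T(E) diag(P a)`; the block `(p, q)` says `(a i - a j) t i j x p q = (w p a - w q a) t i j x p q`.
`br`: `E i j x` has the weight `a ↦ a i - a j`, `E j l y` the weight `a ↦ a j - a l`; these linear functionals on `bD n k` are different for `i < j < l` (take the vector `1` at `i`, `-2` at `j`, `1` at `l`: the values are `3` and `-3`), so `T [E i j x, E j l y] = [T(..), T(..)]`, and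
`[E i j x, E j l y] = E i l (x y)` (`E j l y * E i j x = 0` because `l ≠ i`).  `inj`: `T`, `blk` and `single` are injective (`0 < k`). -/
def SlxStmt : Prop :=
  ∀ (k k' : ℕ), 0 < k → 0 < k' → ∀ (𝔻 : Subalgebra ℝ (Matrix (Fin k) (Fin k) ℝ))
    (𝔻' : Subalgebra ℝ (Matrix (Fin k') (Fin k') ℝ)) (n m : ℕ),
    WkEmb (datD n 𝔻) (datD m 𝔻') → Nonempty (SLW n m 𝔻 𝔻')

/-! ### The lower bound -/

/-- the middle index `j + 1` of `Fin (N + 2)` -/
def md {N : ℕ} (j : Fin N) : Fin (N + 2) := j.castSucc.succ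

/-- the last index -/
def la (N : ℕ) : Fin (N + 2) := Fin.last (N + 1)

/-- the multiplicity of a weight -/
noncomputable def mu {m : ℕ} {α : Type} (w : Fin m → α) (ν : α) : ℕ := Nat.card {p : Fin m // w p = ν}

/-- the differences of the weights which belong to an active weight -/
def wo {N : ℕ} : (Fin 2 ⊕ (Fin N ⊕ Fin N)) → SZ (N + 2) → ℝ
  | Sum.inl 0 => 0
  | Sum.inl 1 => ep 0 (la N)
  | Sum.inr (Sum.inl j) => ep (md j) (la N)
  | Sum.inr (Sum.inr j) => ep 0 (md j)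

/-- **SCT** (easy, no hypotheses).  Counting.
Proof.  The sets `{p | w p = g i}` are pairwise disjoint; `Finset.card_biUnion`, or: the map `(Σ i, {p // w p = g i}) → Fin m` is injective, `Nat.card_sigma`, `Nat.card_le_card_of_injective`. -/
def SctStmt : Prop :=
  ∀ (m : ℕ) (α I : Type) [Fintype I] (w : Fin m → α) (g : I → α), Function.Injective g →
    ∑ i, mu w (g i) ≤ m

/-- **SWD** (medium, no hypotheses).  The weights are different.
Proof.  Test the functionals at three vectors of sum zero.  Let `v₊` be a strictly decreasing vector of sum zero (`v₊ i = (N + 1) / 2 - i`, real numbers), for `j : Fin N` let `u j = e_0 - e_(md j)`, `u' j = e_(la) - e_(md j)`, and `u'' j = 2 e_(md j) - e_0 - e_(la)`.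
(1) At `v₊`: `0`, `ep (md j) la`, `ep 0 (md j)` are `≥ 0`, only the first is `0`, and they are `< ep 0 la`; `ep (md j) la`, `ep (md i) la` have different values for `i ≠ j`, the same for `ep 0 (md j)`.  `ep (md j) la ≠ ep 0 (md i)`: at `u j` the values are `-1` and `1` or `2`.
(2) `θ = ep 0 la`, a sum `θ + z` with `z` one of the three functionals has at `v₊` a value `> θ(v₊)`, larger than all the `wo i`.  (3) follows from (1).
(4) At `u j` the value of `ep (md j) la + ep (md j) la` is `-2`, the values of `wo i` and of `θ + ep (md j) la` are `≥ -1` (`0`, `1`, `0` or `-1`, `1` or `2`; `1 - 1 = 0`).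
(5) At `u' j` the value of `ep 0 (md j) + ep 0 (md j)` is `2`, the values of `wo i` and of `θ + ep 0 (md j)` are `≤ 1` (`0`, `-1`, `-1` or `-2`... `≤ 0`, `0` or `1`; `-1 + 1 = 0`). -/
def SwdStmt : Prop :=
  ∀ N : ℕ, Function.Injective (wo : (Fin 2 ⊕ (Fin N ⊕ Fin N)) → SZ (N + 2) → ℝ) ∧
    (∀ i : Fin 2 ⊕ (Fin N ⊕ Fin N), ep 0 (la N) + ep 0 (la N) ≠ wo i) ∧
    (∀ (j : Fin N) (i : Fin 2 ⊕ (Fin N ⊕ Fin N)),
      ep 0 (la N) + ep (md j) (la N) ≠ wo i ∧ ep 0 (la N) + ep 0 (md j) ≠ wo i ∧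
      ep (md j) (la N) + ep (md j) (la N) ≠ wo i ∧ ep 0 (md j) + ep 0 (md j) ≠ wo i) ∧
    (∀ j : Fin N, ep 0 (la N) + ep (md j) (la N) ≠ ep 0 (la N) + ep 0 (md j) ∧
      ep 0 (la N) + ep (md j) (la N) ≠ ep 0 (la N) + ep 0 (la N) ∧
      ep 0 (la N) + ep 0 (md j) ≠ ep 0 (la N) + ep 0 (la N) ∧
      ep (md j) (la N) + ep (md j) (la N) ≠ ep 0 (la N) + ep (md j) (la N) ∧
      ep 0 (md j) + ep 0 (md j) ≠ ep 0 (la N) + ep 0 (md j))

/-- an active weight: `t 0 la` does not vanish on the coordinates of weight `μ` -/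
def SLW.Act {N m : ℕ} {D D' : Type} [Ring D] [Algebra ℝ D] [Ring D'] [Algebra ℝ D']
    (S : SLW (N + 2) m D D') (μ : SZ (N + 2) → ℝ) : Prop :=
  ∃ p q x, S.w q = μ ∧ S.t 0 (la N) x p q ≠ 0

/-- **SAC** (medium, no hypotheses).  The multiplicities for an active weight.
Proof.  Let `w q = μ`, `t 0 la x₀ p q ≠ 0`; so `w p = μ + ep 0 la` (`sup`), this gives the first two claims.  Let `j : Fin N`, `I = {s // w s = μ + ep (md j) la} ⊕ {s // w s = μ + ep 0 (md j)}`.  The linear map `Φ : D → (I → D')`,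
`x ↦ (s ↦ t 0 (md j) x p s, s ↦ t 0 (md j) x s q)` is injective: let `Φ x = 0`.  For all `y`, by `br`, `t 0 la (x y) p q = ∑_s t 0 (md j) x p s * t (md j) la y s q - ∑_s t (md j) la y p s * t 0 (md j) x s q`.  In the first sum `t (md j) la y s q ≠ 0` implies
`w s = w q + ep (md j) la`, so `t 0 (md j) x p s = 0`; in the second sum `t 0 (md j) x s q ≠ 0` implies `w s = μ + ep 0 (md j)`, so this entry is `0` by `Φ x = 0`.  So `t 0 la (x y) p q = 0` for all `y`.  If `x ≠ 0`, then `x x' = 1` for some `x'`, and `y = x' x₀` gives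
`t 0 la x₀ p q = 0`, a contradiction.  So `finrank D ≤ finrank (I → D') = card I * finrank D'`, `card I` = the sum of the two multiplicities `s`; `(r - 1) d' < d ≤ s d'` gives `r - 1 < s`. -/
def SacStmt : Prop :=
  ∀ (N m : ℕ) (D D' : Type) [Ring D] [Algebra ℝ D] [Ring D'] [Algebra ℝ D']
    [FiniteDimensional ℝ D] [FiniteDimensional ℝ D'], (∀ x : D, x ≠ 0 → ∃ y, x * y = 1) →
    ∀ (S : SLW (N + 2) m D D') (r : ℕ), (r - 1) * Module.finrank ℝ D' < Module.finrank ℝ D →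
    ∀ μ, S.Act μ → 1 ≤ mu S.w μ ∧ 1 ≤ mu S.w (μ + ep 0 (la N)) ∧
      ∀ j : Fin N, r ≤ mu S.w (μ + ep (md j) (la N)) + mu S.w (μ + ep 0 (md j))

/-- **STW** (medium-strong, uses SCT SWD SAC).  Two active weights.
Proof.  Let `μ ≠ μ'` be active, `W = {μ + wo i}`.  Write `θ = ep 0 la`.  Up to exchanging `μ` and `μ'` one of the following holds (consider `δ = μ' - μ`: if `μ' = μ + wo i` or `μ' + θ = μ + wo i` for some `i`; `μ' + θ = μ` is `μ = μ' + θ`; `μ' + θ = μ + θ` is impossible;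
`μ' + θ = μ + ep (md j) la` is `μ = μ' + ep 0 (md j)`, because `θ = ep 0 (md j) + ep (md j) la`; `μ' + θ = μ + ep 0 (md j)` is `μ = μ' + ep (md j) la`).
(0) `μ'`, `μ' + θ ∉ W`.  SCT for the weights `μ + wo i`, `μ'`, `μ' + θ` (index type `(Fin 2 ⊕ (Fin N ⊕ Fin N)) ⊕ Fin 2`, injective by SWD) and SAC: `m ≥ 1 + 1 + r N + 1 + 1`.
(1) `μ' = μ + θ`.  Add to `W` the weights `μ + (θ + θ)`, `μ + (θ + ep (md j) la)`, `μ + (θ + ep 0 (md j))` for one `j` (`0 < N`); SWD; by SAC for `μ'`: `m ≥ r N + 2 + 1 + r`, `r ≥ 1`.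
(2) `μ' = μ + ep (md j) la`.  Add the weights `μ' + θ = μ + (θ + ep (md j) la)` and `μ' + ep (md j) la = μ + (ep (md j) la + ep (md j) la)`.  By SAC for `μ'` and `j`: `r ≤ mu (μ' + ep (md j) la) + mu (μ' + ep 0 (md j))`, and `μ' + ep 0 (md j) = μ + θ`.  So
`m ≥ mu μ + mu (μ + θ) + r N + mu (μ' + θ) + mu (μ' + ep (md j) la) ≥ 1 + r N + 1 + r`.
(3) `μ' = μ + ep 0 (md j)`: the same with `μ' + θ` and `μ' + ep 0 (md j) = μ + (ep 0 (md j) + ep 0 (md j))`, `μ' + ep (md j) la = μ + θ`. -/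
def StwStmt : Prop :=
  ∀ (N m : ℕ) (D D' : Type) [Ring D] [Algebra ℝ D] [Ring D'] [Algebra ℝ D']
    [FiniteDimensional ℝ D] [FiniteDimensional ℝ D'], 0 < N →
    (∀ x : D, x ≠ 0 → ∃ y, x * y = 1) →
    ∀ (S : SLW (N + 2) m D D') (r : ℕ), 1 ≤ r →
    (r - 1) * Module.finrank ℝ D' < Module.finrank ℝ D →
    ∀ μ μ', S.Act μ → S.Act μ' → μ ≠ μ' → r * N + min 4 (r + 2) ≤ m

/-- **SON** (medium, uses SCT SWD SAC).  One active weight.
Proof.  First claim: the map `D → ({p // w p = μ + ep 0 la} → {q // w q = μ} → D')`, `x ↦ (t 0 la x p q)`, is injective: if all these entries vanish and `t 0 la x p q ≠ 0`, then `w q` is active, so `w q = μ` and `w p = μ + ep 0 la` (`sup`), a contradiction; so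
`t 0 la x = 0` and `x = 0` (`inj`).  Compare dimensions.  Second claim: SCT for the weights `μ + wo i` (injective by SWD) and SAC. -/
def SonStmt : Prop :=
  ∀ (N m : ℕ) (D D' : Type) [Ring D] [Algebra ℝ D] [Ring D'] [Algebra ℝ D']
    [FiniteDimensional ℝ D] [FiniteDimensional ℝ D'], (∀ x : D, x ≠ 0 → ∃ y, x * y = 1) →
    ∀ (S : SLW (N + 2) m D D') (r : ℕ), (r - 1) * Module.finrank ℝ D' < Module.finrank ℝ D →
    ∀ μ, S.Act μ → (∀ μ', S.Act μ' → μ' = μ) →
      Module.finrank ℝ D ≤ mu S.w (μ + ep 0 (la N)) * mu S.w μ * Module.finrank ℝ D' ∧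
      r * N + mu S.w (μ + ep 0 (la N)) + mu S.w μ ≤ m

/-- **SLB** (easy-medium, uses STW SON).  The lower bound.
Proof.  `D ≠ 0` (its dimension is positive), so there is `x ≠ 0` in `D`, `t 0 la x ≠ 0` (`inj`): there is an active weight `μ`.  If there is another one, STW: `m ≥ r N + min 4 (r + 2)`; take `(p, q) = (1, 1), (1, 2), (2, 2), (2, 2)` for `r = 1, 2, 3, 4`.
Otherwise SON; `p = mu (μ + ep 0 la)`, `q = mu μ`: `(r - 1) d' < d ≤ p q d'`, so `r ≤ p q`. -/
def SlbStmt : Prop :=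
  ∀ (N m : ℕ) (D D' : Type) [Ring D] [Algebra ℝ D] [Ring D'] [Algebra ℝ D']
    [FiniteDimensional ℝ D] [FiniteDimensional ℝ D'], 0 < N →
    (∀ x : D, x ≠ 0 → ∃ y, x * y = 1) → Nonempty (SLW (N + 2) m D D') → ∀ r : ℕ, 1 ≤ r → r ≤ 4 →
    (r - 1) * Module.finrank ℝ D' < Module.finrank ℝ D → ∃ p q : ℕ, r ≤ p * q ∧ r * N + p + q ≤ m

/-! ### The embeddings -/

/-- **SLG** (medium-strong, no hypotheses).  Embeddings from a representation of `𝔻` by matrices over `𝔻'` and a set of coordinates.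
Proof.  `T (blk x) = blk y`, `y s s' = ρ (x (g s).1 (g s').1) (g s).2 (g s').2` (an element of `𝔻'`; `0` if not `(g s).1 < (g s').1`).  `y ∈ UD m 𝔻'`: if `s' ≤ s`, then `(g s').1 ≤ (g s).1`, so `x .. = 0`.  Linear.  Injective: if `y = 0`, then for `i < j` the
last hypothesis gives `x i j = 0`.  `P (cst a) = cst a'`, `a' s = a (g s).1 - (1/m) ∑_s' a (g s').1` (sum `0`); if `P (cst a) = 0`, then `a (g s).1` does not depend on `s`, so `a` is constant (every `i` is some `(g s).1`), and its sum is `0`: `a = 0`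
(`n = 0`: trivial).  Compatibility with the diagonals: the constant `(1/m) ∑ ..` cancels, and `a i - a j` is a real scalar, `ρ` is linear.  Products: for `x, x' ∈ UD n 𝔻` the entry `(s, s'')` of `y y'` is `∑_(s') ρ(x i i')_(c c') ρ(x' i' i'')_(c' c'')` with
`g s = (i, c)`, `g s' = (i', c')`, `g s'' = (i'', c'')`; only the `s'` with `i < i' < i''` contribute, and `g` is a bijection from these `s'` onto the pairs `(i', c')`, `i < i' < i''`; so it is `∑_(i') (ρ(x i i') ρ(x' i' i''))_(c c'') = ρ((x x') i i'')_(c c'')`. -/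
def SlgStmt : Prop :=
  ∀ (k k' r n m : ℕ), 0 < k → 0 < k' → ∀ (𝔻 : Subalgebra ℝ (Matrix (Fin k) (Fin k) ℝ))
    (𝔻' : Subalgebra ℝ (Matrix (Fin k') (Fin k') ℝ)) (ρ : 𝔻 →ₐ[ℝ] Matrix (Fin r) (Fin r) 𝔻')
    (g : Fin m → Fin n × Fin r), Function.Injective g →
    (∀ s s', s ≤ s' → (g s).1 ≤ (g s').1) →
    (∀ (i j l : Fin n) (c : Fin r), i < j → j < l → ∃ s, g s = (j, c)) →
    (∀ i, ∃ s, (g s).1 = i) →
    (∀ i j, i < j → ∀ x : 𝔻, (∀ s s', (g s).1 = i → (g s').1 = j → ρ x (g s).2 (g s').2 = 0) →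
      x = 0) →
    AlgEmb (datD n 𝔻) (datD m 𝔻')

/-- **SLI** (medium, uses SLG, and ACM (`AcmStmt`) of QSX).  The coordinates.
Proof.  `g : Fin (p + N * r + q) → Fin (N + 2) × Fin r`: the first `p` numbers `i` go to `(0, α i)`, the next `N r` numbers, written as `finProdFinEquiv (j, c)` (`= c + r j`), to `(md j, c)`, the last `q` numbers `i` to `(la, β i)` (`Fin.addCases` twice).  `g` is injective, its
first component is monotone, the middle indices are those of the form `md j`; every index is a first component (`0 < r` because `α 0 : Fin r`).  Last hypothesis of SLG: `i = 0 < j = la`: this is `h`.  `i = 0`, `j = md j'`: all `ρ x (α i) c = 0`, in particular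
`ρ x (α i) (β j) = 0`, so `x = 0`; the same for `i = md i'`, `j = la` and for two middle indices.  So `AlgEmb (datD (N + 2) 𝔻) (datD (p + N r + q) 𝔻')`; then `alg_pad` (DDE) adds zero blocks: `AlgEmb (datD m' 𝔻') (datD (m' + d) 𝔻')`, and ACM composes. -/
def SliStmt : Prop :=
  ∀ (k k' r p q N m : ℕ), 0 < k → 0 < k' → 0 < p → 0 < q →
    ∀ (𝔻 : Subalgebra ℝ (Matrix (Fin k) (Fin k) ℝ)) (𝔻' : Subalgebra ℝ (Matrix (Fin k') (Fin k') ℝ))
    (ρ : 𝔻 →ₐ[ℝ] Matrix (Fin r) (Fin r) 𝔻') (α : Fin p → Fin r) (β : Fin q → Fin r),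
    Function.Injective α → Function.Injective β →
    (∀ x : 𝔻, (∀ i j, ρ x (α i) (β j) = 0) → x = 0) → p + N * r + q ≤ m →
    AlgEmb (datD (N + 2) 𝔻) (datD m 𝔻')

/-! ### The three algebras -/

/-- the algebra of the matrices of the left multiplications of an algebra with a basis -/
noncomputable def reg {k : ℕ} (A : Type) [Ring A] [Algebra ℝ A] (b : Module.Basis (Fin k) ℝ A) :
    Subalgebra ℝ (Matrix (Fin k) (Fin k) ℝ) := (Algebra.leftMulMatrix b).range

/-- the real, complex and quaternionic `SL_n` -/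
noncomputable def SLd : Fin 3 → ℕ → Dat
  | 0, n => datD n (reg ℝ (Module.Basis.singleton (Fin 1) ℝ))
  | 1, n => datD n (reg ℂ Complex.basisOneI)
  | 2, n => datD n (reg (Quaternion ℝ) (QuaternionAlgebra.basisOneIJK (-1) 0 (-1)))

/-- the smallest `m` such that `SL_n` over the algebra `i` embeds in `SL_m` over the algebra `j` -/
def bnd (i j : Fin 3) (n : ℕ) : ℕ :=
  if i ≤ j then n else if i = 2 ∧ j = 0 then 4 * n - 4 else 2 * n - 1

/-- **SLR** (medium, no hypotheses).  The lower bound in terms of the three algebras: from `SLB`-data to numbers.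
Proof.  `reg A b` is isomorphic to `A` (`Algebra.leftMulMatrix_injective`, `AlgEquiv.ofInjective`), so it is a division ring in the sense of the first claim, and its dimension is `k` (`= 1, 2, 4`; `LinearEquiv.finrank_eq`, `Module.finrank_eq_card_basis`). -/
def SlrStmt : Prop :=
  ∀ (k : ℕ) (A : Type) [DivisionRing A] [Algebra ℝ A] (b : Module.Basis (Fin k) ℝ A),
    (∀ x : reg A b, x ≠ 0 → ∃ y, x * y = 1) ∧ Module.finrank ℝ (reg A b) = k

/-- **SLP** (medium, no hypotheses).  Representations of the regular algebras from representations of the algebras.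
Proof.  Let `φ : A ≃ₐ reg A b`, `φ' : A' ≃ₐ reg A' b'` (`AlgEquiv.ofInjective _ (Algebra.leftMulMatrix_injective _)`); `ρ' = (φ' applied to the entries) ∘ ρ ∘ φ⁻¹` (`AlgHom.mapMatrix`). -/
def SlpStmt : Prop :=
  ∀ (k k' r p q : ℕ) (A A' : Type) [DivisionRing A] [Algebra ℝ A] [DivisionRing A'] [Algebra ℝ A']
    (b : Module.Basis (Fin k) ℝ A) (b' : Module.Basis (Fin k') ℝ A')
    (ρ : A →ₐ[ℝ] Matrix (Fin r) (Fin r) A') (α : Fin p → Fin r) (β : Fin q → Fin r),
    (∀ x : A, (∀ i j, ρ x (α i) (β j) = 0) → x = 0) →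
    ∃ ρ' : reg A b →ₐ[ℝ] Matrix (Fin r) (Fin r) (reg A' b'),
      ∀ x : reg A b, (∀ i j, ρ' x (α i) (β j) = 0) → x = 0

/-- **SLQ** (medium, no hypotheses).  The representations.
Proof.  (1) An injective algebra homomorphism `A → A'` as a `1 × 1` matrix (`Matrix.uniqueAlgEquiv` or `Matrix.scalar`-like; `Fin 1`): for `ℝ → A'` (`Algebra.ofId`), `ℂ → ℂ`, `ℍ → ℍ` (identity), `ℂ → ℍ` (`Quaternion.ofComplex`); homomorphisms of a division ring are injective.
(2) `ℂ → M_2(ℝ)`: `Algebra.leftMulMatrix Complex.basisOneI`, first column = coordinates of `x * 1 = x`.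
(3) `ℍ → M_2(ℂ)`: `a + b i + c j + d k ↦ !![z, u; -conj u, conj z]`, `z = a + b i`, `u = c + d i`; the first column determines `z` and `u`.
(4) `ℍ → M_4(ℝ)`: `Algebra.leftMulMatrix (basisOneIJK ..)`; rows `1, 3`, columns `0, 1`: `q 1 = (a, b, c, d)`, `q i = (-b, a, d, -c)`, so the four entries are `b, d, a, -c`. -/
def SlqStmt : Prop :=
  (∀ (A A' : Type) [DivisionRing A] [Algebra ℝ A] [DivisionRing A'] [Algebra ℝ A'],
    (A →ₐ[ℝ] A') → ∃ (ρ : A →ₐ[ℝ] Matrix (Fin 1) (Fin 1) A') (α β : Fin 1 → Fin 1),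
      Function.Injective α ∧ Function.Injective β ∧ ∀ x, (∀ i j, ρ x (α i) (β j) = 0) → x = 0) ∧
  (∃ (ρ : ℂ →ₐ[ℝ] Matrix (Fin 2) (Fin 2) ℝ) (α : Fin 2 → Fin 2) (β : Fin 1 → Fin 2),
      Function.Injective α ∧ Function.Injective β ∧ ∀ x, (∀ i j, ρ x (α i) (β j) = 0) → x = 0) ∧
  (∃ (ρ : Quaternion ℝ →ₐ[ℝ] Matrix (Fin 2) (Fin 2) ℂ) (α : Fin 2 → Fin 2) (β : Fin 1 → Fin 2),
      Function.Injective α ∧ Function.Injective β ∧ ∀ x, (∀ i j, ρ x (α i) (β j) = 0) → x = 0) ∧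
  (∃ (ρ : Quaternion ℝ →ₐ[ℝ] Matrix (Fin 4) (Fin 4) ℝ) (α β : Fin 2 → Fin 4),
      Function.Injective α ∧ Function.Injective β ∧ ∀ x, (∀ i j, ρ x (α i) (β j) = 0) → x = 0)

/-- **SLZ** (medium, uses SLX SLB SLI SLR SLP SLQ).  The classification of the algebraic part.
Proof.  `n = N + 2`, `0 < N`.  Nine cases.  (1) Lower bound: SLX, SLR, SLB with `r = 1` for `i ≤ j`, `r = 2` for `(1, 0)`, `(2, 1)`, `r = 4` for `(2, 0)` (`(r - 1) d' < d` with `d, d' ∈ {1, 2, 4}`): there are `p, q` with `r ≤ p q`, `r N + p + q ≤ m`.  `r = 1`: `p, q ≥ 1`.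
`r = 2`: `p + q ≥ 3`.  `r = 4`: `p + q ≥ 4` (`p, q ≥ 1`; `p + q ≤ 3` gives `p q ≤ 2`).  (2) Embeddings: SLQ, SLP, SLI with `(r, p, q) = (1, 1, 1)`, `(2, 2, 1)`, `(4, 2, 2)`; `p + N r + q = bnd i j (N + 2)`. -/
def SlzStmt : Prop :=
  ∀ (i j : Fin 3) (n m : ℕ), 3 ≤ n → (WkEmb (SLd i n) (SLd j m) → bnd i j n ≤ m) ∧
    (bnd i j n ≤ m → AlgEmb (SLd i n) (SLd j m))

/-- **SLS** (easy-medium, no hypotheses).  The three algebras are spanned by rational matrices.
Proof.  `S` = the matrices `Algebra.leftMulMatrix b (b i)`; their entries are the coordinates of `b i * b j`, which are `0`, `1` or `-1` (compute; `Complex.basisOneI`: `1, I`; `basisOneIJK`: `1, i, j, k`; `ℝ`: `1`).  They span the range of the linear map `leftMulMatrix b`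
(`Submodule.map_span`, `Module.Basis.span_eq`). -/
def SlsStmt : Prop :=
  RatSp (reg ℝ (Module.Basis.singleton (Fin 1) ℝ)) ∧ RatSp (reg ℂ Complex.basisOneI) ∧
    RatSp (reg (Quaternion ℝ) (QuaternionAlgebra.basisOneIJK (-1) 0 (-1)))

/-! ### The theorems -/

/-- **WKX** (easy, uses VGQ (StmtsB2) WKM).  A quasi-isometric embedding in a product with a Euclidean factor gives a weak embedding; no hypothesis on `Y`.  Proof.  VGQ gives `S`, `P`, `C`; WKM. -/
def WkxStmt : Prop := ∀ X Y : Dat, Nonempty (MS X) → QE X Y → WkEmb X Y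

/-- **SLF** (easy-medium, uses WKX CVM MSD SLS SLZ, and EMB LEN (`EmbStmt`, `LenStmt`) of QSX).  The classification.
Proof.  `SLd i n` is of type `MS` (SLS, MSD, CVM; `fin_cases i`).  QE implies `WkEmb` (WKX), so `bnd i j n ≤ m` (SLZ).  A quasi-isometric embedding `f : X → Y` gives one in `Y × ℝ` (`x ↦ (f x, 0)`; `qie_pair` in `Helper10_QSX/FIN.lean`).  `bnd i j n ≤ m` gives `AlgEmb` (SLZ), EMB gives both quasi-isometric
embeddings (see `nsd_D` in `Helper10_QSX/NSD.lean`). -/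
def SlfStmt : Prop :=
  ∀ (i j : Fin 3) (n m : ℕ), 3 ≤ n → (QE (SLd i n) (SLd j m) ↔ bnd i j n ≤ m) ∧
    ((∃ f : (SLd i n).Pt → (SLd j m).Pt, QIE (SLd i n).dist (SLd j m).dist f) ↔ bnd i j n ≤ m)

end Pool.Agent.QSN
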