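import Pool.Agent.QSN.StmtsB

/-!
# Squad QSN, part B2: from the gauge fixed flats to `TopInj`

One statement per row; every docstring contains a complete proof.  `w_il` stands for the functional
`a ↦ P a i - P a l`.  Rows of part B1 (`StmtsB.lean`) and of squad QSX are used as hypotheses, or
imported where they are proved.
-/

set_option autoImplicit false

namespace Pool.Agent.QSN

open Matrix Finset Pool.Agent.QSX Filter Topology

section

variable {X Y : Dat} {hX : MS X} {H : Grd hX}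

/-- the difference of two flats over the residue field -/
noncomputable def AFQ.V (A : AFQ X Y hX H) (n n' : ℕ → UX X) :
    Matrix (Fin Y.m) (Fin Y.m) A.S.FF :=
  A.S.redM fun s => (((A.χ s (n s))⁻¹ * A.χ s (n' s) : UX Y) : Matrix (Fin Y.m) (Fin Y.m) ℝ)

/-- good and bounded sequences -/
def Bas.GB (B : Bas X Y hX H) (n : ℕ → UX X) : Prop := B.Good n ∧ B.Bd n

end

/-! ### Invariance of the central steps -/

/-- **WKT** (easy-medium, uses BRN TPR).  The vectors `w_k`.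
Proof.  `rt (l k) ≠ rt (m k)` (`ne`), `rt (l k) + rt (m k) = rt (top (comp (l k)))` (`top`).  (1) BRN.  (2) TPR (third part); so `w_k = ∑_(t ∈ L) c_t e_t` (all `t` have `p = q = 1`), a combination of `e t` with `rt t = rt (top (comp (l k)))`: (3).
(4) `w_k ≠ 0` by `lin`, so `L (l k) (m k) ≠ []`; for `t` in it `comp t = comp (l k)`, `comp t = comp (m k)` (`L_comp`).  (5) If `rt (l k) = rt (top ..)`, then `rt (m k) = 0`, against `rt_ne`; the same for `m k` (with (4)). -/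
def WktStmt : Prop :=
  ∀ (X : Dat) (hX : MS X) (H : Grd hX) (k : Fin H.D),
    H.w k = hX.br hX.e (H.l k) (H.m k) ∧
    (∀ t ∈ hX.L (H.l k) (H.m k), t.2.1 = 1 ∧ t.2.2.1 = 1 ∧
      hX.rt t.1 = hX.rt (hX.top (hX.comp (H.l k)))) ∧
    H.w k ∈ Submodule.span ℝ (hX.e '' {t | hX.rt t = hX.rt (hX.top (hX.comp (H.l k)))}) ∧
    hX.comp (H.m k) = hX.comp (H.l k) ∧
    hX.rt (H.l k) ≠ hX.rt (hX.top (hX.comp (H.l k))) ∧
    hX.rt (H.m k) ≠ hX.rt (hX.top (hX.comp (H.m k)))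

/-- **AZE** (easy-medium, no hypotheses).  An element which separates `rt l` from the top roots.
Proof.  `j = comp l`.  `rt l` is not a multiple of `rt (top j)` (`nonprop`), so there is `a₁` with `rt (top j) a₁ = 0`, `rt l a₁ ≠ 0` (otherwise the kernel of `rt (top j)` is contained in the kernel of `rt l`, and `rt l = c • rt (top j)`: take `a₊` with `rt (top j) a₊ > 0` and
`a - (rt (top j) a / rt (top j) a₊) • a₊`).  Let `S`, `S'` be as in `scal` for `κ = 2` at `j`, `1` elsewhere, and for `κ = 1`; `a₂ = S a₁ - S' a₁` has `rt t a₂ = rt t a₁` if `comp t = j` and `0` otherwise.  If `rt t = rt (top (comp t))`: for `comp t = j` it is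
`rt (top j) a₁ = 0`.  `a₀ = ± a₂`. -/
def AzeStmt : Prop :=
  ∀ (X : Dat) (hX : MS X) (l : hX.ι), hX.rt l ≠ hX.rt (hX.top (hX.comp l)) →
    ∃ a₀ : X.b, 0 < hX.rt l a₀ ∧ ∀ t, hX.rt t = hX.rt (hX.top (hX.comp t)) → hX.rt t a₀ = 0

/-- **MDV** (medium, uses NRE RDM RLG RNF BCH LGM of QSX, proved).  The differences over the residue field.
Proof.  (1) `n s = ue x`, `n' s = ue x'`, `x`, `x'` bounded elements of `n` (eventually): `(n s)⁻¹ * n' s = ue z`, `z = mlog (mexp (-x) * mexp x') ∈ n` (BCH, LGM; also LGP), bounded (a fixed polynomial in the entries), `z ∈ span (e '' univ)` (`span_e`).  `near` with `Ψ = univ`, `t = 0` and NRE (i) for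
`K = dual univ`: moderate.  (Where the condition fails put `z = 0`; only eventual statements matter.)  `χ(n)⁻¹ χ(n') = ue y`, `y ∈ Y.n` (BCH), `y = mlog (..)` is moderate (RLG), `redM y ∈ nF` (RNF), `redM (mexp y) = mexp (redM y)` (RLG).
(2) `χ(n)⁻¹ χ(n'') = (χ(n)⁻¹ χ(n')) (χ(n')⁻¹ χ(n''))` and RDM.  (3) `χ(n)⁻¹ χ(n) = 1`, RDM (constant sequence). -/
def MdvStmt : Prop :=
  ∀ (X Y : Dat) (hX : MS X) (H : Grd hX) (A : AFQ X Y hX H),
    (∀ n n', A.GB n → A.GB n' →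
      A.S.MdM (fun s => (((A.χ s (n s))⁻¹ * A.χ s (n' s) : UX Y) : Matrix (Fin Y.m) (Fin Y.m) ℝ)) ∧
      ∃ y ∈ Y.nF A.S.FF, A.V n n' = mexp y) ∧
    (∀ n n' n'', A.GB n → A.GB n' → A.GB n'' → A.V n n'' = A.V n n' * A.V n' n'') ∧
    (∀ n, A.GB n → A.V n n = 1)

/-- **SPV** (easy-medium, uses NRE RDM BCH of QSX, proved).  The support of the differences.
Proof.  First claim: NRE (ii) with the cone `dual Ψ`, for `near` with `t = 0` (`exp (-(0 R)) = 1`).  Second claim: `zero` and RDM (last part). -/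
def SpvStmt : Prop :=
  ∀ (X Y : Dat) (hX : MS X) (H : Grd hX) (A : AFQ X Y hX H) (n n' : ℕ → UX X), A.GB n → A.GB n' →
    ∀ (Ψ : Set hX.ι) (z : ℕ → Matrix (Fin X.m) (Fin X.m) ℝ) (K : ℝ),
    (∀ᶠ s in (A.S.ω : Filter ℕ), z s ∈ Submodule.span ℝ (hX.e '' Ψ) ∧ (∀ i j, |z s i j| ≤ K) ∧
      n' s = n s * ue (z s)) →
    ∀ i l, i < l → A.V n n' i l ≠ 0 →
      (∀ a ∈ hX.dual Ψ, 0 ≤ A.P a i - A.P a l) ∧ ∃ a, A.P a i - A.P a l ≠ 0

/-- **IVQ** (medium-strong, uses WKT AZE MDV SPV CEN and FCP of QSX, proved).  The central steps do not change along a root element.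
Proof.  Write `N = n`, `a = ue x`, `c = H.u z` (central: CEN (4)), so `n c a = n a c`.  By MDV (2): `V(na, nac) = V(na, n) V(n, nc) V(nc, nca)`, `V(na, n) V(n, na) = 1`.  Let `a₀` be as in AZE for `l`, `Ψ = {t | rt t = rt (top (comp t))} ∪ {t | rt t = rt l}`,
`r i k` : `0 ≤ w_ik(a)` for all `a ∈ dual Ψ`, `q i k` : `w_ik(a₀) = 0`; `a₀ ∈ dual Ψ`.  `r` is transitive and if `r i j`, `r j k` then `w_ij(a₀), w_jk(a₀) ≥ 0`, so `q i k ↔ q i j ∧ q j k`.  FCP gives `G` and `π`.  SPV for `{t | rt t = rt l}` and the steps `n → na`, `nc → nca`: a nonzero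
entry has `w_ik ≥ 0` on `{rt l ≥ 0}`, so `w_ik = κ rt l`, `κ ≥ 0` (`fks`, `pos`), and `w_ik ≠ 0`: `κ > 0`, so `r i k` and not `q i k`: these differences are in `G` and `π = 1` on them.  SPV for `{t | rt t = rt (top (comp t))}` and the steps `n → nc`, `na → nac`
(`c = ue (∑ z_k w_k)`, WKT (3); `rt t = rt (top (comp (l k)))` implies `comp t = comp (l k)` by `comp_rt`, `comp_top`, so `rt t = rt (top (comp t))`): a nonzero entry has `w_ik ≥ 0` on `dual` of this set, which contains `a₀` and `-a₀`, so `w_ik(a₀) = 0`: in `G`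
(`dual Ψ` is smaller) and fixed by `π`.  Apply `π` (the differences are unitriangular matrices `mexp y`, units): `V(na, nac) = V(n, nc)`. -/
def IvqStmt : Prop :=
  ∀ (X Y : Dat) (hX : MS X) (H : Grd hX) (A : AFQ X Y hX H) (l : hX.ι),
    hX.rt l ≠ hX.rt (hX.top (hX.comp l)) →
    ∀ (n : ℕ → UX X) (x : ℕ → Matrix (Fin X.m) (Fin X.m) ℝ) (z : ℕ → Fin H.D → ℝ) (K : ℝ),
      (∀ s, x s ∈ Submodule.span ℝ (hX.e '' {t | hX.rt t = hX.rt l})) → (∀ s i j, |x s i j| ≤ K) →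
      (∀ s k, |z s k| ≤ K) →
      A.GB n → A.GB (fun s => n s * ue (x s)) → A.GB (fun s => n s * H.u (z s)) →
      A.GB (fun s => n s * ue (x s) * H.u (z s)) →
      A.V n (fun s => n s * H.u (z s)) =
        A.V (fun s => n s * ue (x s)) (fun s => n s * ue (x s) * H.u (z s))

/-- **PTQ** (medium-strong, uses WKT CEN WDS IVQ and PLN of QSX, proved).  The central steps are the same at the two ends of a good path.
Proof.  If `D = 0` there is only one function `Fin D → ℤ`.  Let `M = M s`, `c_k = V (s ↦ gp M (md m m' k)) (s ↦ gp M (md m m' k + z))`, `k ≤ D`; `md m m' 0 = m`, `md m m' D = m'`.  Claim `c_k = c_(k+1)` for `k < D`.  Write `p_i = wd (k, i) M m m'`; `wd (k, i) M (m + z) (m' + z) = gp M z * p_i`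
(WDS (2)) `= p_i * gp M z` (WDS (3), CEN (4)), `gp M z = H.u (z / M)`.  All `p_i`, `p_i * gp M z` are good, and bounded (they are `ue x`, `x ∈ n` by WDS (3), of bounded length by WDS (5); PLN with `c = 0`, `ud 0 = 1`: `log (1 + sz x) ≤ K (len (ue x) + 1)`).  Let `y = (m' k - m k)/M` (bounded by
`2 HH D`).  `p_1 = p_0 ue (e (l k))`, `p_2 = p_1 ue (y e (m k))`, `p_3 = p_4 ue (y e (m k))`, and `p_2 = p_3 ue (e (l k))`: `gp M (md (k+1)) = gp M (md k) ue (y w_k)` (`md (k+1) = md k + (m' k - m k) e_k`; CEN (3)) and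
`ue (e (l k)) ue (y e (m k)) = ue (y w_k) ue (y e (m k)) ue (e (l k))` (CEN (2)).  So IVQ (for `l k`, resp. `m k`: not top by WKT (5); `z / M` bounded by `2 HH D`) gives `c_k = V(p_0, p_0 c) = V(p_1, p_1 c) = V(p_2, p_2 c) = V(p_3, p_3 c) = V(p_4, p_4 c) = c_(k+1)`. -/
def PtqStmt : Prop :=
  ∀ (X Y : Dat) (hX : MS X) (H : Grd hX) (A : AFQ X Y hX H) (m m' z : ℕ → Fin H.D → ℤ),
    (∀ s k, |m s k| ≤ ((HH H.D * A.M s : ℕ) : ℤ) ∧ |m' s k| ≤ ((HH H.D * A.M s : ℕ) : ℤ) ∧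
      |(m s + z s) k| ≤ ((HH H.D * A.M s : ℕ) : ℤ) ∧ |(m' s + z s) k| ≤ ((HH H.D * A.M s : ℕ) : ℤ)) →
    (∀ᶠ s in (A.S.ω : Filter ℕ), ∀ i, H.wd i (A.M s) (m s) (m' s) ∈ A.Gd s ∧
      H.wd i (A.M s) (m s + z s) (m' s + z s) ∈ A.Gd s) →
    A.V (fun s => H.gp (A.M s) (m s)) (fun s => H.gp (A.M s) (m s + z s)) =
      A.V (fun s => H.gp (A.M s) (m' s)) (fun s => H.gp (A.M s) (m' s + z s))

/-! ### Combinatorics and sequences -/

/-- **MAJ** (medium-strong, pure counting, no hypotheses).  The majority.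
Proof.  `N = HH D * M = 32 (D+1) M`, `B = Bx N a`, `#B = N^D`.  For `|z_k| ≤ 2 M` at most `∑_k |z_k| N^(D-1) ≤ 2 D M N^(D-1) ≤ N^D / 16` points `m` of `B` have `m + z ∉ B` (coordinate `k` in an interval of length `|z_k|` at the edge), and for `|z_k| ≤ M` at most `N^D / 32`.
Let `bad(n)` be the number of `m ∈ B` with `m + z ∈ B` and (`¬ g n m` or `¬ g (n + z) (m + z)`).  `∑_(n ∈ B, n + z ∈ B) bad(n) ≤ 2 ε N^(2D)` (the map `(n, m) ↦ (n + z, m + z)` is injective), and there are at least `(15/16) N^D` such `n` (so at least one), so for one of them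
`bad(n) ≤ (32/15) ε N^D ≤ N^D / 24`.  Put `n z = n` (for `|z_k| ≤ 2 M`; `0` otherwise).  So the set `G_z` of the `m ∈ B` with `m + z ∈ B`, `g (n z) m`, `g (n z + z) (m + z)` has at least `(1 - 1/16 - 1/24) N^D ≥ (7/8) N^D` elements.
Second claim: we need `m ∈ G_z ∩ G_(z+z')` with `m + z ∈ G_(z')`.  The number of `m ∈ B` with `m ∉ G_z` is `≤ N^D / 8`, the same for `G_(z+z')`, and `m + z ∉ G_(z')` (`m + z ∈ B`) holds for at most `N^D / 8` of the `m`, `m + z ∉ B` for at most `N^D/32`; the sum is less than `N^D` (`N^D ≥ 1`).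
Third claim: at most `N^D / 8 + ε N^D < N^D` points are not in `G_(sh M k)` (`|sh M k| ≤ M`) or fail the last two conditions. -/
def MajStmt : Prop :=
  ∀ (D M : ℕ) (a : Fin D → ℕ) (ε : ℝ) (g : (Fin D → ℤ) → (Fin D → ℤ) → Prop), 0 < M →
    (∀ k, 2 * a k < HH D * M) → ε ≤ 1 / 64 →
    (({q : (Fin D → ℤ) × (Fin D → ℤ) | q.1 ∈ Bx (HH D * M) a ∧ q.2 ∈ Bx (HH D * M) a ∧
      ¬ g q.1 q.2}.ncard : ℕ) : ℝ) ≤ ε * ((HH D * M : ℕ) : ℝ) ^ (2 * D) →
    (({m : Fin D → ℤ | m ∈ Bx (HH D * M) a ∧ (¬ g 0 m ∨ ∃ k, m + sh M k ∈ Bx (HH D * M) a ∧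
      ¬ g (sh M k) (m + sh M k))}.ncard : ℕ) : ℝ) ≤ ε * ((HH D * M : ℕ) : ℝ) ^ D →
    ∃ n : (Fin D → ℤ) → (Fin D → ℤ),
      (∀ z, n z ∈ Bx (HH D * M) a ∧
        ((∀ k, |z k| ≤ 2 * (M : ℤ)) → n z + z ∈ Bx (HH D * M) a)) ∧
      (∀ z z' : Fin D → ℤ, (∀ k, |z k| ≤ (M : ℤ)) → (∀ k, |z' k| ≤ (M : ℤ)) →
        ∃ m, m ∈ Bx (HH D * M) a ∧
        m + z ∈ Bx (HH D * M) a ∧ m + (z + z') ∈ Bx (HH D * M) a ∧
        g (n z) m ∧ g (n z + z) (m + z) ∧ g (n z') (m + z) ∧ g (n z' + z') (m + (z + z')) ∧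
        g (n (z + z')) m ∧ g (n (z + z') + (z + z')) (m + (z + z'))) ∧
      (∀ k, ∃ m, m ∈ Bx (HH D * M) a ∧ m + sh M k ∈ Bx (HH D * M) a ∧
        g (n (sh M k)) m ∧ g (n (sh M k) + sh M k) (m + sh M k) ∧
        g 0 m ∧ g (sh M k) (m + sh M k))

/-- **OVS** (easy-medium, no hypotheses).  Overspill.
Proof.  First claim: otherwise for every `k ≥ 1` eventually (ultrafilter) there is `z ∈ Z s` with `|f s z| > exp (-(R / k))`.  For each `s` let `k(s) ≤ s` be the largest `k` (`1 ≤ k ≤ s`) for which there is such a `z`, and let `z s` be such an element (any element of `Z s` if there is none).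
For a fixed `k ≥ 1` eventually `s ≥ k` (if `{s < k} ∈ ω` then `R` is bounded on a set of `ω`, against `tend`) and the set for `k` is in `ω`, so `k(s) ≥ k` and `|f s (z s)| > exp (-(R / k(s))) ≥ exp (-(R / k))` (`R ≥ 0` eventually).  So `f s (z s)` is not `≤ exp (-(c R))` eventually for any
`c > 0` (take `1/k < c`): contradiction.  Second claim: otherwise for some `ε > 0` eventually there is `z ∈ Z s` with `|f s z| > exp (ε R)`; choose them. -/
def OvsStmt : Prop :=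
  ∀ (S : Scale) (α : Type) (Z : ℕ → Set α) (f : ℕ → α → ℝ), (∀ s, (Z s).Nonempty) →
    ((∀ z : ℕ → α, (∀ s, z s ∈ Z s) → S.Sm (fun s => f s (z s))) →
      ∃ c > (0 : ℝ), ∀ᶠ s in (S.ω : Filter ℕ), ∀ z ∈ Z s, |f s z| ≤ Real.exp (-(c * S.R s))) ∧
    ((∀ z : ℕ → α, (∀ s, z s ∈ Z s) → S.Md (fun s => f s (z s))) →
      ∀ ε > (0 : ℝ), ∀ᶠ s in (S.ω : Filter ℕ), ∀ z ∈ Z s, |f s z| ≤ Real.exp (ε * S.R s))

/-- **HUL** (medium, no hypotheses).  Almost additive functions on a box of the grid.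
Proof.  First `D = 1`, along `e_i`: `t(x) = T (x e_i)` for an integer `x`, `|x| ≤ M`.  Let `y = 2^(K - k)`, so `2^k y = M`.  (1) `|t(2^j u) - 2^j t(u)| ≤ 2^j η` if `2^j |u| ≤ M` (induction on `j`: `t(2^(j+1) u)` and `2 t(2^j u)` differ by `≤ η`).  (2) `|t(q y) - q t(y)| ≤ (|q| + 1) η` for an integer `q`, `|q| ≤ 2^k`
(induction on `|q|`; `|t(0)| ≤ η`, `|t(-u) + t(u)| ≤ 2 η` absorb into a constant: use `|t(q y) - q t(y)| ≤ (|q| + 2) η`).  For `|x| ≤ M` write `x = q y + r`, `|r| < y`, `|q| ≤ 2^k` (`Int.tdiv`, `Int.tmod`).  `|t(x) - t(q y) - t(r)| ≤ η`, `|t(q y) - q t(y)| ≤ (2^k + 2) η`,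
`|2^k t(y) - t(M)| ≤ 2^k η`, so `|q t(y) - (q / 2^k) t(M)| ≤ |q| η ≤ 2^k η`; `|2^k t(r)| ≤ |t(2^k r)| + 2^k η`, so `|t(r)| ≤ 2^(-k) b + η`; `|(q / 2^k) t(M) - (x / M) t(M)| ≤ (|r| / M) b ≤ 2^(-k) b`.  Sum: `|t(x) - (x/M) t(M)| ≤ (2^(k+1) + 4) η + 2 · 2^(-k) b ≤ 6 · 2^k η + 2 · 2^(-k) b`.
General `z`: adding the coordinates one after the other, `|T z - ∑_i T (z_i e_i)| ≤ (D + 1) η` (`|T 0| ≤ η`; for `D = 0`: `z = 0`).  Total `≤ (D + 1) (7 · 2^k η + 2 · 2^(-k) b)`. -/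
def HulStmt : Prop :=
  ∀ (D K k : ℕ) (T : (Fin D → ℤ) → ℝ) (η b : ℝ), k ≤ K → 0 ≤ η → 0 ≤ b →
    (∀ z z', (∀ i, |z i| ≤ ((2 ^ K : ℕ) : ℤ)) → (∀ i, |z' i| ≤ ((2 ^ K : ℕ) : ℤ)) →
      |T (z + z') - T z - T z'| ≤ η) →
    (∀ z, (∀ i, |z i| ≤ ((2 ^ K : ℕ) : ℤ)) → |T z| ≤ b) →
    ∀ z, (∀ i, |z i| ≤ ((2 ^ K : ℕ) : ℤ)) →
      |T z - ∑ i, ((z i : ℝ) / ((2 ^ K : ℕ) : ℝ)) * T (sh (2 ^ K) i)| ≤
        10 * (D + 1) * (2 ^ k * η + b / 2 ^ k)

/-! ### The linear map on the centre -/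

section

variable {X Y : Dat} {hX : MS X} {H : Grd hX}

/-- **The almost additive map** on the grid: `T s z` is the logarithm of the step `z` at the point `n s z`. -/
structure AddQ (A : AFQ X Y hX H) where
  T : ℕ → (Fin H.D → ℤ) → Matrix (Fin Y.m) (Fin Y.m) ℝ
  n : ℕ → (Fin H.D → ℤ) → (Fin H.D → ℤ)
  eq : ∀ s z, T s z = mlog (((A.χ s (H.gp (A.M s) (n s z)))⁻¹ *
    A.χ s (H.gp (A.M s) (n s z + z)) : UX Y) : Matrix (Fin Y.m) (Fin Y.m) ℝ)
  good : ∀ z : ℕ → Fin H.D → ℤ, (∀ s k, |z s k| ≤ (A.M s : ℤ)) →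
    A.GB (fun s => H.gp (A.M s) (n s (z s))) ∧ A.GB (fun s => H.gp (A.M s) (n s (z s) + z s))
  md : ∀ z : ℕ → Fin H.D → ℤ, (∀ s k, |z s k| ≤ (A.M s : ℤ)) → A.S.MdM (fun s => T s (z s))
  add : ∀ z z' : ℕ → Fin H.D → ℤ, (∀ s k, |z s k| ≤ (A.M s : ℤ)) → (∀ s k, |z' s k| ≤ (A.M s : ℤ)) →
    ∀ i j, A.S.Sm (fun s => T s (z s + z' s) i j - T s (z s) i j - T s (z' s) i j)
  val : ∀ k, A.S.redM (fun s => T s (sh (A.M s) k)) =
    mlog (A.V (fun _ => 1) (fun _ => ue (H.w k)))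

/-- **The linear map**: the same with linearity up to an exponentially small error. -/
structure LinQ (A : AFQ X Y hX H) extends AddQ A where
  lin : ∃ c > (0 : ℝ), ∀ᶠ s in (A.S.ω : Filter ℕ), ∀ z : Fin H.D → ℤ, (∀ k, |z k| ≤ (A.M s : ℤ)) →
    ∀ i j, |T s z i j - ∑ k, ((z k : ℝ) / (A.M s : ℝ)) * T s (sh (A.M s) k) i j| ≤
      Real.exp (-(c * A.S.R s))

end

/-- **ADT** (strong, uses MAJ PTQ MDV WDS CEN and PLN RLG RDM LGM NFL of QSX, proved).  The almost additive map exists.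
Proof.  `g_s m m'` : `∀ i, wd i (M s) m m' ∈ Gd s`.  Eventually `ε s ≤ 1/64`; for these `s` MAJ (with `pair`, `star`: `∃ i, .. ∉` is `¬ g`; `M s > 0` by `pow`) gives `n s`; for the other `s` put `n s = 0`.  `T` is defined by `eq`.
Words and points: if `D > 0` and `g_s m m'`, then `gp M m = wd (0, 0) M m m' ∈ Gd s` and `gp M m' = wd (D-1, 4) M m m' ∈ Gd s` (`md m m' 0 = m`, `md m m' D = m'`); if `D = 0` all `gp M m = u 0 = 1`, good by `gam` (`1 ∈ Γ`).  Points of `Bx` have `|m_k| ≤ HH D * M` (`0 ≤ a_k < HH D * M / 2`), and `gp M m`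
is bounded for such `m` (`u` of a bounded vector: a polynomial in it; or WDS and PLN).  `good`: for `|z_k| ≤ 2 M` write `z = z₁ + z₂` with `|z₁|, |z₂| ≤ M` (for `|z_k| ≤ M`: `z₂ = 0`): MAJ (2) gives `g (n z) m` and `g (n z + z) (m + z)`: `gp (n z)`, `gp (n z + z)` are good.
`V(z) := A.V (gp (n z)) (gp (n z + z)) = mexp y`, `y ∈ nF`, for sequences `|z| ≤ 2 M`, and `redM (T s (z s)) = mlog V(z)`, `T` moderate (MDV (1), RLG): `md`.  Additivity: `m_s` from MAJ (2) for `z`, `z'`.  PTQ: `V(z) = A.V (gp m) (gp (m + z))`, `V(z') = A.V (gp (m + z)) (gp (m + z + z'))`,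
`V(z + z') = A.V (gp m) (gp (m + (z + z')))`, so `V(z + z') = V(z) V(z')` (MDV (2)).  By symmetry `V(z) V(z') = V(z') V(z)`, so the logarithms commute (`mlog` is a polynomial) and `mlog (V(z) V(z')) = mlog V(z) + mlog V(z')` (`mexp_add`, LGM, NFL: `SU`); so `redM` of the difference in `add` is `0`: `Sm` (RDM).
`val`: `m` from MAJ (3); PTQ for the pairs `(n (sh k), m)` and `(0, m)` with `z = sh M k`: `V(sh k) = A.V (gp m) (gp (m + sh k)) = A.V (gp 0) (gp (sh k)) = A.V 1 (ue w_k)` (`gp M 0 = 1`, `gp M (sh M k) = u (Pi.single k 1) = ue w_k`, `M > 0`; `0, sh M k` are in the box). -/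
def AdtStmt : Prop :=
  ∀ (X Y : Dat) (hX : MS X) (H : Grd hX) (A : AFQ X Y hX H), Nonempty (AddQ A)

/-- **LIQ** (medium, uses ADT OVS HUL).  Linearity.
Proof.  OVS (1) for `Z s = {(z, z') : |z_k|, |z'_k| ≤ M s}` and each `i`, `j`: there is `c > 0` (the same for all `i`, `j`) with `|T(z+z') - T(z) - T(z')|_ij ≤ exp (-(c R)) =: η` eventually for all `(z, z') ∈ Z s`.  OVS (2) and `md`: `|T(z)_ij| ≤ exp ((c/4) R) =: b` eventually for all `|z_k| ≤ M s`.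
`M s = 2^K` (`pow`), and `exp (c R) ≤ M s` eventually (`big`).  Let `k` be the largest natural number with `2^k ≤ exp ((c/2) R)` (`R ≥ 0`; then `2^(k+1) > exp ((c/2) R)` and `k ≤ K`).  HUL: the error is `≤ 10 (D+1) (exp (-(c/2) R) + 2 exp (-(c/2) R + (c/4) R)) ≤ 30 (D+1) exp (-(c/4) R) ≤ exp (-(c/8) R)`
eventually. -/
def LiqStmt : Prop :=
  ∀ (X Y : Dat) (hX : MS X) (H : Grd hX) (A : AFQ X Y hX H), Nonempty (LinQ A)

/-! ### Injectivity -/

/-- **LGC** (easy-medium, uses CLG CLE LGM of QSX, proved).  The class condition and the logarithm, for one sequence.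
Proof.  (1) `mlog g` is a real combination of the powers `(g - 1)^k`, `1 ≤ k ≤ m`; `((g-1)^k)_il` is a sum of at most `m^k` products `g_(i j_1) g_(j_1 j_2) ..`, `i < j_1 < .. < l` (above the diagonal `g - 1` and `g` agree; `g - 1` is strictly upper triangular), the exponents add up and the constants are absorbed by
`ε` (`R → ∞`), as in the proof of CLE (`Pool/Agent/Helper10_QSX/CLE.lean`).  (2) CLE. -/
def LgcStmt : Prop :=
  ∀ (S : Scale) (V : Type) (m : ℕ) (P : V → Fin m → ℝ) (B : Set V),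
    (∀ g : ℕ → Matrix (Fin m) (Fin m) ℝ, (∀ s, UU (g s)) → S.Cl P B g →
      S.Cl P B (fun s => mlog (g s))) ∧
    (∀ x : ℕ → Matrix (Fin m) (Fin m) ℝ, (∀ s, SU (x s)) → S.Cl P B x →
      S.Cl P B (fun s => mexp (x s)))

/-- **NVK** (medium, no hypotheses).  Normalisation of a vector over the residue field.
Proof.  Choose moderate sequences `v_k(s)` with class `v k` (the zero sequence if `v k = 0`).  `μ(s) = max (over k) |v_k(s)|` (or `∑_k`; take the maximum) is moderate and not small: some `v k ≠ 0`, so `v_k` is not small, and `|v_k(s)| ≤ μ(s)`.  So `μ ≠ 0` eventually (`ne_zero_ev`) and `μ⁻¹` is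
moderate (`inv_md`).  Put `u s k = v_k(s) / μ(s)` (`0` if `μ(s) = 0`): the first three claims (the maximum is attained).  Last claim: `∑_k u s k τ_k(s) = μ(s)⁻¹ ∑_k v_k(s) τ_k(s)`, and the class of `∑_k v_k τ_k` is `∑_k v k * red (τ k) = 0` (`red z = Ideal.Quotient.mk` of the moderate sequence), so it is small;
`Sm.mul_md`. -/
def NvkStmt : Prop :=
  ∀ (S : Scale) (D : ℕ) (v : Fin D → S.FF), v ≠ 0 → ∃ u : ℕ → Fin D → ℝ,
    (∀ s k, |u s k| ≤ 1) ∧ (∀ᶠ s in (S.ω : Filter ℕ), ∃ k, |u s k| = 1) ∧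
    (∀ k, v k = 0 → ∀ s, u s k = 0) ∧
    ∀ τ : Fin D → ℕ → ℝ, (∀ k, S.Md (τ k)) → ∑ k, v k * S.red (τ k) = 0 →
      S.Sm (fun s => ∑ k, u s k * τ k s)

/-- **SCL** (medium-strong, uses LGC WKT CEN and LGM BCH of QSX, proved).  Small steps in the direction `u`.
Proof.  `θ = rt (top j)`.  `z s k` = the integer nearest to `M u_k exp (-(t R))` (`round`), so `|z s k - M u_k exp (-(t R))| ≤ 1`, `|z s k| ≤ M` (`|M u_k exp(-(t R))| ≤ M` if `R ≥ 0`; at the `s` with `R s < 0` put `z = 0`; here `1 ≤ R` always, `one_le`), `z s k = 0` if `u s k = 0`.  `τ s = T s (z s)`.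
(1) `T s (z s) = ∑ (z_k/M) T(sh k) + O(exp (-(c₀ R)))` (`lin`), `|z_k/M - u_k exp (-(t R))| ≤ 1/M ≤ exp (-(2 c₀ R))` eventually (`big`), the `T (sh k)` are moderate (`md` for the constant choice `z = sh (M s) k`): so the difference is `≤ exp (-(c₀ R)) + D exp (-(2 c₀ R) + (c₀/2) R) ≤ exp (-((c₀/2) R))` eventually; `c = c₀/2`
does not depend on `t`.
(2) `ζ s = ∑_k (z_k/M) w_k ∈ span (e '' {t' | rt t' = θ})` (WKT (3): only `k` with `comp (l k) = j` occur), `gp M (n + z) = gp M n * ue (ζ s)` (CEN (3)).  `|z_k/M| ≤ exp (-(t R)) + 1/M ≤ 2 exp (-(t R))` eventually (`big` for `c = t + 1`, `R ≥ 1`).  So `|ζ_ij| ≤ K exp (-(t R))`, and `near` for the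
good bounded sequences `gp (n (z))`, `gp (n (z) + z)` (`good`), with `Ψ = {t' | rt t' = θ}`, gives the class condition for `mexp (T s (z s))` (LGM: `mexp (mlog g) = g`) on `{‖a‖ ≤ 1} ∩ {-t ≤ θ(a)}`; LGC (1).  (`dual`-type set: `∀ ν ∈ Ψ, -t ≤ rt ν a` is `-t ≤ θ a`; `top j ∈ Ψ`.)
(3) The `w_k` are linearly independent (`H.lin`), so there is `c₁ > 0` with `max_ij |∑ v_k w_k|_ij ≥ c₁ max |v_k|`.  If `max_k |u_k| = 1` eventually, then `max_k |z_k/M| ≥ exp (-(t R)) - 1/M ≥ exp (-(t R))/2`, so `|ζ_ij| ≥ (c₁/2) exp (-(t R))` for some `i`, `j`.  If `τ` satisfied the class condition at `a`,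
`‖a‖ ≤ 1`, `θ(a) < -t`, so would `mexp (τ s) = χ(n)⁻¹ χ(n')` (LGC (2), LGM): against `far` for `l = top j`. -/
def SclStmt : Prop :=
  ∀ (X Y : Dat) (hX : MS X) (H : Grd hX) (A : AFQ X Y hX H) (Q : LinQ A) (j : hX.J)
    (u : ℕ → Fin H.D → ℝ), (∀ s k, |u s k| ≤ 1) → (∀ k, hX.comp (H.l k) ≠ j → ∀ s, u s k = 0) →
    ∃ c > (0 : ℝ), ∀ t : ℝ, 0 ≤ t → ∃ τ : ℕ → Matrix (Fin Y.m) (Fin Y.m) ℝ,
      (∀ i l, ∀ᶠ s in (A.S.ω : Filter ℕ),
        |τ s i l - Real.exp (-(t * A.S.R s)) * ∑ k, u s k * Q.T s (sh (A.M s) k) i l| ≤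
          Real.exp (-(c * A.S.R s))) ∧
      A.S.Cl A.P ({a | ‖a‖ ≤ 1} ∩ {a | -t ≤ hX.rt (hX.top j) a}) τ ∧
      ((∀ᶠ s in (A.S.ω : Filter ℕ), ∃ k, |u s k| = 1) →
        ∀ a : X.b, ‖a‖ ≤ 1 → hX.rt (hX.top j) a < -t → ¬ A.S.Cl A.P {a} τ)

/-- **SML** (medium, uses SCL).  The entries of weight `κ θ`, `κ > 1`, are small.
Proof.  Let `Λ s = ∑_k u_k T(sh k) i l`, `θ = rt (top j)`, `a₁` with `θ(a₁) = 1` (`pos`), `c` from SCL, `t = min (c/2, 1/(1 + ‖a₁‖)) > 0`, `τ` from SCL.  At `a = -(t • a₁)`: `‖a‖ ≤ 1`, `θ(a) = -t`, so for `ε = (κ - 1) t / 2` eventually `|τ_il| ≤ exp (R (-(κ t) + ε))`, and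
`|Λ| ≤ exp (t R) (|τ_il| + exp (-(c R))) ≤ exp (-((κ - 1) t / 2) R) + exp (-((c/2) R))`: small (`Sm.add`). -/
def SmlStmt : Prop :=
  ∀ (X Y : Dat) (hX : MS X) (H : Grd hX) (A : AFQ X Y hX H) (Q : LinQ A) (j : hX.J)
    (u : ℕ → Fin H.D → ℝ), (∀ s k, |u s k| ≤ 1) → (∀ k, hX.comp (H.l k) ≠ j → ∀ s, u s k = 0) →
    ∀ (i l : Fin Y.m) (κ : ℝ), i < l → 1 < κ →
      (∀ a, A.P a i - A.P a l = κ * hX.rt (hX.top j) a) →
      A.S.Sm (fun s => ∑ k, u s k * Q.T s (sh (A.M s) k) i l)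

/-- **CTR** (medium-strong, uses SCL).  The contradiction.
Proof.  `Λ_il(s) = ∑_k u_k T(sh k) i l`, `θ = rt (top j)`, `a₁` with `θ(a₁) = 1` (`pos`), `w_il = P_i(a₁) - P_l(a₁)`.  There are finitely many pairs, so there are `c₃ > 0` and `κ₀ ∈ [0, 1)` such that for `i < l` either `|Λ_il| ≤ exp (-(c₃ R))` eventually, or `w_il(a) = κ θ(a)` for all `a` with `0 < κ ≤ κ₀`;
`c₃ ≤ c`, `c` from SCL.  Let `W ≥ 1` bound all `|w_il(a₁)|` and `‖a₁‖`, `t = min (c₃, 1) / (4 W)`, `σ = t (1 - κ₀) ∈ (0, t]`, `a = -((t + σ) • a₁)`: `‖a‖ ≤ 2 t W ≤ 1`, `θ(a) = -(t + σ) < -t`.  `τ` from SCL for `t`.  Claim: the class condition holds at `a`, contradiction.  Let `ε > 0`.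
First kind: `|τ_il| ≤ exp (-(t R)) exp (-(c₃ R)) + exp (-(c R)) ≤ 2 exp (-(c₃ R))`, and `w_il(a) ≥ -(t + σ) W ≥ -(c₃/2)`, so this is `≤ exp (R (w_il(a) + ε))` eventually.  Second kind: `T(sh k) i l` is moderate (`Q.md`), so `|Λ_il| ≤ exp ((ε/2) R)` eventually, and
`|τ_il| ≤ exp (-(t R) + (ε/2) R) + exp (-(c R)) ≤ 2 exp (-(t R) + (ε/2) R)` (`c ≥ t`), while `w_il(a) = -κ (t + σ) ≥ -κ₀ (t + t (1 - κ₀)) = -t κ₀ (2 - κ₀) ≥ -t` (`(1 - κ₀)² ≥ 0`): so it is `≤ exp (R (w_il(a) + ε))` eventually. -/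
def CtrStmt : Prop :=
  ∀ (X Y : Dat) (hX : MS X) (H : Grd hX) (A : AFQ X Y hX H) (Q : LinQ A) (j : hX.J)
    (u : ℕ → Fin H.D → ℝ), (∀ s k, |u s k| ≤ 1) → (∀ k, hX.comp (H.l k) ≠ j → ∀ s, u s k = 0) →
    (∀ᶠ s in (A.S.ω : Filter ℕ), ∃ k, |u s k| = 1) →
    ¬ ∀ i l : Fin Y.m, i < l →
      A.S.Sm (fun s => ∑ k, u s k * Q.T s (sh (A.M s) k) i l) ∨
      ∃ κ : ℝ, 0 < κ ∧ κ < 1 ∧ ∀ a, A.P a i - A.P a l = κ * hX.rt (hX.top j) a

/-- **INQ** (medium-strong, uses LIQ NVK SML CTR MDV SPV WKT and RDM of QSX, proved).  Injectivity over the residue field.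
Proof.  `Q` from LIQ, `L_k = mlog (V 1 (ue w_k)) = redM (T (sh k))` (`val`), `θ = rt (top j)`.  Suppose `v ≠ 0`; `u` from NVK.  `u s k = 0` if `comp (l k) ≠ j`.  By CTR there are `i < l` such that `Λ_il = ∑_k u_k T(sh k) i l` is not small and `w_il` is not `κ θ` with `0 < κ < 1`.
`Λ_il` not small implies that some `T(sh k) i l` with `comp (l k) = j` is not small (finite sum; `|u| ≤ 1`), so `L_k i l ≠ 0` (RDM).  The constant sequences `1`, `ue w_k` are good and bounded (`gam`; `ue w_k ∈ Γ`: it is the commutator of `ue (e (l k))`, `ue (e (m k))`, CEN (2) with `y = 1`, or take it from `Q.good`), and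
`SPV` for `Ψ = {t | rt t = θ}` (WKT (3)) says that the entries of `V 1 (ue w_k)` are supported on the pairs with `w ≥ 0` on `{θ ≥ 0}`, `w ≠ 0`, i.e. `w = κ θ` with `κ > 0` (`fks`, `pos`); this relation is transitive, so `L_k` is supported on it too (SPT of QSX, proved).  So `w_il = κ θ`, `κ > 0`, and `κ ≥ 1`.  `κ > 1`
contradicts SML.  `κ = 1`: the entry `(i, l)` of the hypothesis is `∑_k v k * L_k i l = 0` (`part` keeps this entry), `L_k i l = red (T(sh k) i l)`, so NVK says that `Λ_il` is small: contradiction. -/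
def InqStmt : Prop :=
  ∀ (X Y : Dat) (hX : MS X) (H : Grd hX) (A : AFQ X Y hX H) (j : hX.J)
    (v : Fin H.D → A.S.FF), (∀ k, hX.comp (H.l k) ≠ j → v k = 0) →
    ∑ k, v k • part A.P (fun a => hX.rt (hX.top j) a)
      (mlog (A.V (fun _ => 1) (fun _ => ue (H.w k)))) = 0 → v = 0

/-- **TOQ** (medium-strong, linear algebra, uses WKT TAD and LGM NFL of QSX, proved).  From the vectors `w_k` to the basis of the top root space.
Proof.  Let `¬ One j`, `θ = rt (top j)`, `K_j = {k | comp (l k) = j}`.  (1) There is `t₀` in the class of `top j`, and by `span` `e (top j)` is a combination of the `w_k`; the part of it in the class `θ` is a combination of the `w_k`, `k ∈ K_j` (`w_k ∈ span (e '' {t | rt t = rt (top (comp (l k)))})`, WKT (3); if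
`rt (top (comp (l k))) = θ` then `comp (l k) = j` by `comp_rt`, `comp_top` (`comp (top (comp (l k))) = comp (l k)`; and `comp (top j) = j` because `¬ One j` gives an `l` with `comp l = j`)).  So for every `t` of the class there are real `d_tk`, `k ∈ K_j`, with `e t = ∑_k d_tk w_k` (`span` and `lin` of `e`), and
`w_k = ∑_t c_kt e_t` with rational `c_kt` (WKT (1), (2)).
(2) `L_k := mlog ((χ 1)⁻¹ χ (ue w_k)) = ∑_t c_kt C t`: TAD (second claim, `n = 1`, for an element `t₀` of `L (l k) (m k)`, nonempty since `w_k ≠ 0`) gives `(χ 1)⁻¹ χ (1 * ue w_k) = ue (∑ c_kt C t)`, and `mlog (mexp ..) = ..` (LGM; `C t ∈ nF`, CVL or NFL: `SU`).  The sum over `L (l k) (m k)` is rewritten as a sum over the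
class (the first components are different: `L_nodup`).
(3) Let `x : class → F` with `∑_t x_t part (C t) = 0`.  `∑_k d_tk c_kt' = δ_tt'` (`lin` of `e`), so `C t = ∑_k d_tk L_k` and `0 = ∑_t x_t part (C t) = ∑_k (∑_t x_t d_tk) part (L_k)` (`part` is additive and `F`-homogeneous).  The hypothesis with `v k = ∑_t x_t d_tk` (`k ∈ K_j`, `0` otherwise) gives `v = 0`, and
`x_t' = ∑_t x_t δ_tt' = ∑_k v k c_kt' = 0`. -/
def ToqStmt : Prop :=
  ∀ (X Y : Dat) (hX : MS X) (H : Grd hX) (F : Type) [Field F] [Algebra ℝ F]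
    (P : X.b →ₗ[ℝ] (Fin Y.m → ℝ)) (A : AFM X Y hX F P),
    (∀ (j : hX.J) (v : Fin H.D → F), (∀ k, hX.comp (H.l k) ≠ j → v k = 0) →
      ∑ k, v k • part P (fun a => hX.rt (hX.top j) a)
        (mlog ((((A.χ 1)⁻¹ * A.χ (ue (H.w k)) : (Matrix (Fin Y.m) (Fin Y.m) F)ˣ)) :
          Matrix _ _ F)) = 0 → v = 0) →
    TopInj X Y hX F P A.C

/-- **VGQ** (easy-medium assembly, uses BAS FLQ VRQ GAQ AQM BRM CEN INQ TOQ).  From the quasi-isometric embedding to the matrices over a residue field.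
Proof.  `H` from BAS, `A` from FLQ, VRQ, GAQ, `A'` from AQM; `C = A'.C`: GoodM is BRM.  TopInj: TOQ; its hypothesis is INQ: `ue w_k ∈ Γ` (CEN (2) with `y = 1`: a commutator of generators), so `(A'.χ 1)⁻¹ A'.χ (ue w_k) = redM (..) = A.V 1 (ue w_k)` (AQM). -/
def VgqStmt : Prop :=
  ∀ (X Y : Dat) (hX : MS X) (E : Type) [NormedAddCommGroup E] [InnerProductSpace ℝ E]
    (f : X.Pt → Y.Pt × E), QIE X.dist (pdist Y E) f →
    ∃ (S : Scale) (P : X.b →ₗ[ℝ] (Fin Y.m → ℝ)) (C : hX.ι → Matrix (Fin Y.m) (Fin Y.m) S.FF),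
      (∀ a, P a ∈ Y.b) ∧ GoodM X Y hX S.FF P C ∧ TopInj X Y hX S.FF P C

end Pool.Agent.QSN
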