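import Pool.Agent.QSX.StmtsW

/-!
# Squad QSN (MP_dc0713_gt): root spaces of arbitrary dimension, equal rank

Definitions.  Everything of squad QSX (`Pool.Agent.QSX`) is used.  The index set `ι` of a datum of
type `MS` is a basis of `n` of root vectors; `rt l = rt l'` is allowed, but different roots are not
proportional.
-/

set_option autoImplicit false

namespace Pool.Agent.QSN

open Matrix Finset Pool.Agent.QSX

/-- Data with root spaces of arbitrary dimension (the analogue of `Dat.Split`). -/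
structure MS (X : Dat) where
  ι : Type
  fin : Fintype ι
  dec : DecidableEq ι
  e : ι → Matrix (Fin X.m) (Fin X.m) ℝ
  span_e : Submodule.span ℝ (Set.range e) = X.n
  lin : LinearIndependent ℝ e
  /-- the roots -/
  rt : ι → X.b →ₗ[ℝ] ℝ
  wt : ∀ l, ∀ c : X.b, diagonal (c : Fin X.m → ℝ) * e l - e l * diagonal (c : Fin X.m → ℝ) =
    rt l c • e l
  pos : ∃ a : X.b, ∀ l, 0 < rt l a
  sep : ∀ a : X.b, (∀ l, rt l a = 0) → a = 0
  nonprop : ∀ l l', rt l ≠ rt l' → ∀ c : ℝ, rt l ≠ c • rt l'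
  /-- the factors `(t, p, q, c)` of the commutator formula -/
  L : ι → ι → List (ι × ℕ × ℕ × ℚ)
  L_rt : ∀ l l', ∀ t ∈ L l l', 1 ≤ t.2.1 ∧ 1 ≤ t.2.2.1 ∧
    rt t.1 = (t.2.1 : ℝ) • rt l + (t.2.2.1 : ℝ) • rt l'
  L_nodup : ∀ l l', ((L l l').map fun t => t.1).Nodup
  com : ∀ l l', rt l ≠ rt l' → ∀ x y : ℝ,
    ue (x • e l) * ue (y • e l') * (ue (x • e l))⁻¹ * (ue (y • e l'))⁻¹ =
    ((L l l').map fun t => ue (((t.2.2.2 : ℝ) * x ^ t.2.1 * y ^ t.2.2.1) • e t.1)).prod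
  /-- if the root of `t'` occurs in the commutator formula, then `e t'` is a rational combination of
  brackets of root vectors of different roots `rt w.1`, `rt w.2.1` with sum `rt t'` -/
  gen : ∀ l l', rt l ≠ rt l' → ∀ t ∈ L l l', ∀ t', rt t' = rt t.1 → ∃ W : List (ι × ι × ℚ),
    (∀ w ∈ W, rt w.1 ≠ rt w.2.1 ∧ rt w.1 + rt w.2.1 = rt t') ∧
    e t' = (W.map fun w => (w.2.2 : ℝ) • (e w.1 * e w.2.1 - e w.2.1 * e w.1)).sum
  /-- the irreducible components -/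
  J : Type
  comp : ι → J
  top : J → ι
  comp_top : ∀ l, comp (top (comp l)) = comp l
  comp_rt : ∀ l l', rt l = rt l' → comp l = comp l'
  L_comp : ∀ l l', ∀ t ∈ L l l', comp t.1 = comp l ∧ comp t.1 = comp l'
  /-- only the root space of the top root has elements which commute with the other root spaces -/
  climb : ∀ l, rt l ≠ rt (top (comp l)) → ∀ x ∈ Submodule.span ℝ (e '' {l' | rt l' = rt l}),
    (∀ k, rt k ≠ rt l → x * e k - e k * x = 0) → x = 0
  /-- a component with one root has a root space of dimension one (a hyperbolic plane) -/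
  rank1 : ∀ l, (∀ l', comp l' = comp l → rt l' = rt l) → ∀ l', comp l' = comp l → l' = l
  /-- `b` is the direct sum of the parts of the components -/
  scal : ∀ κ : J → ℝ, (∀ j, 0 < κ j) → ∃ S : X.b →ₗ[ℝ] X.b, ∀ l a, rt l (S a) = κ (comp l) * rt l a

attribute [instance] MS.fin MS.dec

section

variable {X : Dat} (hX : MS X)

/-- the group generated by the root elements with rational parameters -/
def MS.Gam : Subgroup (Matrix (Fin X.m) (Fin X.m) ℝ)ˣ :=
  Subgroup.closure {g | ∃ (l : hX.ι) (x : ℚ), g = ue ((x : ℝ) • hX.e l)}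

/-- the cone `Ψ* = {a : ν(a) ≥ 0 for all ν in Ψ}` -/
def MS.dual (Ψ : Set hX.ι) : Set X.b := {a | ∀ ν ∈ Ψ, 0 ≤ hX.rt ν a}

/-- the component of `l` has only the root `rt l` (then it is a hyperbolic plane) -/
def MS.One (j : hX.J) : Prop := ∀ l, hX.comp l = j → hX.rt l = hX.rt (hX.top j)

/-- the brackets of the basis (`L` of the datum): `∑ c_t C_t` over the factors `t` of the
commutator formula of `l`, `l'` with `p = q = 1` -/
noncomputable def MS.br {M : Type} [AddCommGroup M] [Module ℝ M] (C : hX.ι → M) (l l' : hX.ι) : M :=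
  (((hX.L l l').filter fun t => t.2.1 = 1 ∧ t.2.2.1 = 1).map fun t =>
    ((t.2.2.2 : ℚ) : ℝ) • C t.1).sum

end

/-- **The algebraic data over the residue field, for the elements of `Γ`** (the analogue of `AF`). -/
structure AFM (X Y : Dat) (hX : MS X) (F : Type) [Field F] [Algebra ℝ F]
    (P : X.b →ₗ[ℝ] (Fin Y.m → ℝ)) where
  χ : (Matrix (Fin X.m) (Fin X.m) ℝ)ˣ → (Matrix (Fin Y.m) (Fin Y.m) F)ˣ
  val : ∀ n ∈ hX.Gam, ∀ n' ∈ hX.Gam, ∃ y ∈ Y.nF F, (χ n)⁻¹ * χ n' = ue y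
  supp : ∀ n ∈ hX.Gam, ∀ n' ∈ hX.Gam, ∀ Ψ : Set hX.ι, ∀ z ∈ Submodule.span ℝ (hX.e '' Ψ),
    n' = n * ue z → ∀ i l, i < l →
      (((χ n)⁻¹ * χ n' : (Matrix (Fin Y.m) (Fin Y.m) F)ˣ) : Matrix _ _ F) i l ≠ 0 →
      (∀ a ∈ hX.dual Ψ, 0 ≤ P a i - P a l) ∧ ∃ a, P a i - P a l ≠ 0
  nondeg : ∀ n ∈ hX.Gam, ∀ (l : hX.ι) (x : ℚ), x ≠ 0 → (χ n)⁻¹ * χ (n * ue ((x : ℝ) • hX.e l)) ≠ 1

/-- The output of part A: matrices `C l = mlog ((χ 1)⁻¹ χ (ue (e l)))` over `F`. -/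
def GoodM (X Y : Dat) (hX : MS X) (F : Type) [Field F] [Algebra ℝ F]
    (P : X.b →ₗ[ℝ] (Fin Y.m → ℝ)) (C : hX.ι → Matrix (Fin Y.m) (Fin Y.m) F) : Prop :=
  (∀ l, C l ∈ Y.nF F) ∧ (∀ l, C l ≠ 0) ∧
  (∀ l i k, C l i k ≠ 0 → ∃ κ : ℝ, 0 < κ ∧ ∀ a, P a i - P a k = κ * hX.rt l a) ∧
  (∀ l l', hX.rt l ≠ hX.rt l' → C l * C l' - C l' * C l = hX.br C l l')

/-- The output of part B: for the components with at least two roots the parts of weight exactly
`rt (top j)` of the matrices of the top root space are linearly independent over `F`. -/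
def TopInj (X Y : Dat) (hX : MS X) (F : Type) [Field F] [Algebra ℝ F]
    (P : X.b →ₗ[ℝ] (Fin Y.m → ℝ)) (C : hX.ι → Matrix (Fin Y.m) (Fin Y.m) F) : Prop :=
  ∀ j : hX.J, ¬ hX.One j →
    LinearIndependent F fun t : {t : hX.ι // hX.rt t = hX.rt (hX.top j)} =>
      part P (fun a => hX.rt t.1 a) (C t.1)

/-- **Graded families**: `C l` is in `n_Y(F)`, of weight `κ (comp l) * rt l`, the brackets of
vectors of different roots are those of the basis `e`, and the matrices of a top root space are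
linearly independent. -/
def GrM (X Y : Dat) (hX : MS X) (F : Type) [Field F] [Algebra ℝ F]
    (P : X.b →ₗ[ℝ] (Fin Y.m → ℝ)) (κ : hX.J → ℝ)
    (C : hX.ι → Matrix (Fin Y.m) (Fin Y.m) F) : Prop :=
  (∀ l, C l ∈ Y.nF F) ∧
  (∀ l i k, C l i k ≠ 0 → ∀ a : X.b, P a i - P a k = κ (hX.comp l) * hX.rt l a) ∧
  (∀ l l', hX.rt l ≠ hX.rt l' → C l * C l' - C l' * C l = hX.br C l l') ∧
  (∀ j : hX.J, LinearIndependent F fun t : {t : hX.ι // hX.rt t = hX.rt (hX.top j)} => C t.1)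

/-- The root spaces of `Y` are abelian. -/
def AbRt (Y : Dat) : Prop :=
  ∀ ρ : Y.b →ₗ[ℝ] ℝ, ∀ x ∈ Y.n, ∀ y ∈ Y.n,
    (∀ c : Y.b, diagonal (c : Fin Y.m → ℝ) * x - x * diagonal (c : Fin Y.m → ℝ) = ρ c • x) →
    (∀ c : Y.b, diagonal (c : Fin Y.m → ℝ) * y - y * diagonal (c : Fin Y.m → ℝ) = ρ c • y) →
    x * y - y * x = 0

end Pool.Agent.QSN
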